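import Pool.Agent.N683.HR.Stm
import Pool.Agent.N530.LS.A2

/-!
# Project HR (helper683), task SQ (helper27)

A separable polynomial over a number field takes values that are not squares in a given extension.
Proof: Cassels' embedding theorem puts the extension and a root of the polynomial into `ℚ_p`;
rational numbers `w` at distance `p ^ (-N)` from the root, `N` of the right parity, give values of
odd valuation.
-/

set_option autoImplicit false
set_option linter.unusedVariables false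

namespace Pool.Agent.N683.HR

open Polynomial

theorem norm_eq_of_sub_lt {p : ℕ} [Fact p.Prime] {a b : ℚ_[p]} (h : ‖a - b‖ < ‖b‖) :
    ‖a‖ = ‖b‖ := by
  have h1 : a = (a - b) + b := by ring
  rw [h1, Padic.add_eq_max_of_ne h.ne, max_eq_right h.le]

/-- rational numbers at a given distance -/
theorem exists_rat_dist {p : ℕ} [Fact p.Prime] (ρ : ℚ_[p]) (N : ℕ) :
    ∃ w : ℚ, ‖(w : ℚ_[p]) - ρ‖ = (p : ℝ) ^ (-(N : ℤ)) := by
  have hp : (0 : ℝ) < p := by exact_mod_cast (Fact.out : p.Prime).pos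
  obtain ⟨w0, hw0⟩ := Padic.rat_dense p ρ (show (0 : ℝ) < (p : ℝ) ^ (-(N : ℤ)) by positivity)
  refine ⟨w0 + (p : ℚ) ^ N, ?_⟩
  have h1 : (((w0 + (p : ℚ) ^ N : ℚ)) : ℚ_[p]) - ρ = ((w0 : ℚ_[p]) - ρ) + (p : ℚ_[p]) ^ N := by
    push_cast
    ring
  have h2 : ‖(p : ℚ_[p]) ^ N‖ = (p : ℝ) ^ (-(N : ℤ)) := Padic.norm_p_pow N
  have h3 : ‖(w0 : ℚ_[p]) - ρ‖ < ‖(p : ℚ_[p]) ^ N‖ := by
    rw [h2, norm_sub_rev]
    exact hw0
  rw [h1, Padic.add_eq_max_of_ne h3.ne, max_eq_right h3.le, h2]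

/-- an embedding of a number field and a complex number into `ℚ_p` -/
theorem exists_emb (L : Type) [Field L] [NumberField L] (φ : L →+* ℂ) (r : ℂ) :
    ∃ (p : ℕ) (_ : Fact p.Prime) (K : Subfield ℂ) (σ : K →+* ℚ_[p]) (hr : r ∈ K),
      ∀ x : L, φ x ∈ K := by
  classical
  set b := Module.finBasis ℚ L with hb
  obtain ⟨p, hp, -, σ, -⟩ := Pool.Agent.N530.LS.cassels_int
    (insert r (Finset.univ.image fun i => φ (b i))) 0
  refine ⟨p, hp, _, σ, Subfield.subset_closure (by simp), ?_⟩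
  intro x
  rw [← b.sum_repr x, map_sum]
  refine Subfield.sum_mem _ fun i _ => ?_
  rw [Algebra.smul_def, map_mul]
  refine Subfield.mul_mem _ ?_ (Subfield.subset_closure (by simp))
  have : φ (algebraMap ℚ L (b.repr x i)) = ((b.repr x i : ℚ) : ℂ) := by
    rw [eq_ratCast, map_ratCast]
  rw [this]
  exact SubfieldClass.ratCast_mem _ _

/-- **Task SQ.** -/
theorem sq : S_SQ := by
  intro F L _ _ _ _ _ G hG hdeg T hT
  obtain ⟨φ⟩ : Nonempty (L →+* ℂ) := inferInstance
  -- a complex root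
  obtain ⟨r, hr⟩ : ∃ r : ℂ, (G.map (φ.comp (algebraMap F L))).IsRoot r := by
    apply IsAlgClosed.exists_root
    rw [degree_map]
    intro h0
    have h1 : G.natDegree = 0 := natDegree_eq_of_degree_eq_some h0
    rw [h1] at hdeg
    exact absurd hdeg (by norm_num)
  obtain ⟨p, hp, K, σ, hrK, hK⟩ := exists_emb L φ r
  set τ : L →+* ℚ_[p] := σ.comp (φ.codRestrict K hK) with hτ
  set τF : F →+* ℚ_[p] := τ.comp (algebraMap F L) with hτF
  set ρ : ℚ_[p] := σ ⟨r, hrK⟩ with hρ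
  set H : ℚ_[p][X] := G.map τF with hH
  -- the root
  have hroot : H.IsRoot ρ := by
    have h1 : (G.map ((φ.codRestrict K hK).comp (algebraMap F L))).IsRoot (⟨r, hrK⟩ : K) := by
      rw [IsRoot.def]
      apply Subtype.ext
      have h2 : ((eval (⟨r, hrK⟩ : K) (G.map ((φ.codRestrict K hK).comp (algebraMap F L))) : K) : ℂ) =
          eval r (G.map (φ.comp (algebraMap F L))) := by
        rw [eval_map, eval_map]
        have h3 := hom_eval₂ G ((φ.codRestrict K hK).comp (algebraMap F L)) K.subtype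
          (⟨r, hrK⟩ : K)
        exact h3
      rw [h2, hr]
      rfl
    have h4 := IsRoot.map (f := σ) h1
    rw [Polynomial.map_map] at h4
    exact h4
  have hsep : H.Separable := hG.map
  obtain ⟨H₁, hH₁⟩ := dvd_iff_isRoot.mpr hroot
  have hne : H₁.eval ρ ≠ 0 := by
    have h1 := hsep.eval₂_derivative_ne_zero (RingHom.id _) (x := ρ) (by
      rw [eval₂_id]
      exact hroot)
    rw [eval₂_id, hH₁, derivative_mul] at h1
    simpa using h1
  have hp0 : (0 : ℝ) < p := by exact_mod_cast hp.out.pos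
  have hp1 : (1 : ℝ) < p := by exact_mod_cast hp.out.one_lt
  -- near the root
  obtain ⟨δ, hδ, hcont⟩ : ∃ δ : ℝ, 0 < δ ∧ ∀ x : ℚ_[p], ‖x - ρ‖ < δ → ‖H₁.eval x‖ = ‖H₁.eval ρ‖ := by
    have hc : ContinuousAt (fun x => H₁.eval x) ρ := H₁.continuous.continuousAt
    rw [Metric.continuousAt_iff] at hc
    obtain ⟨δ, hδ, h⟩ := hc ‖H₁.eval ρ‖ (norm_pos_iff.mpr hne)
    refine ⟨δ, hδ, fun x hx => norm_eq_of_sub_lt ?_⟩
    have := h (x := x) (by rwa [dist_eq_norm])
    rwa [dist_eq_norm] at this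
  obtain ⟨N0, hN0⟩ : ∃ N0 : ℕ, (p : ℝ) ^ (-(N0 : ℤ)) < δ := by
    obtain ⟨n, hn⟩ := exists_pow_lt_of_lt_one hδ (inv_lt_one_of_one_lt₀ hp1)
    refine ⟨n, ?_⟩
    rw [zpow_neg, zpow_natCast, ← inv_pow]
    exact hn
  choose w hw using fun N : ℕ => exists_rat_dist (p := p) ρ N
  set v : ℤ := (H₁.eval ρ).valuation with hv
  -- the numbers `N` of the right parity
  obtain ⟨c, hc⟩ : ∃ c : ℕ, Odd ((c : ℤ) + v) := by
    rcases Int.even_or_odd v with h | h
    · exact ⟨1, by push_cast; exact Odd.add_even (by decide) h⟩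
    · exact ⟨0, by simpa using h⟩
  set g : ℕ → F := fun k => ((w (c + 2 * (N0 + k)) : ℚ) : F) with hg
  have hinj : Function.Injective g := by
    intro k k' hkk
    have h1 : w (c + 2 * (N0 + k)) = w (c + 2 * (N0 + k')) := by
      have h0 : ((w (c + 2 * (N0 + k)) : ℚ) : F) = ((w (c + 2 * (N0 + k')) : ℚ) : F) := hkk
      exact Rat.cast_injective h0
    have h2 := hw (c + 2 * (N0 + k))
    rw [h1, hw] at h2
    have h3 := zpow_right_injective₀ hp0 hp1.ne' h2
    push_cast at h3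
    omega
  obtain ⟨k, hk⟩ : ∃ k, g k ∉ T := by
    by_contra hcon
    push Not at hcon
    exact (Set.infinite_of_injective_forall_mem hinj hcon) hT
  refine ⟨g k, hk, ?_⟩
  intro y hy
  set N := c + 2 * (N0 + k) with hN
  have h1 : τ (algebraMap F L (G.eval (g k))) = H.eval (w N : ℚ_[p]) := by
    have e1 : τ (algebraMap F L (G.eval (g k))) = τF (G.eval (g k)) := rfl
    rw [e1, hH, eval_map, ← Polynomial.eval₂_hom]
    congr 1
    exact (map_ratCast τF (w N))
  have h2 : (τ y) ^ 2 = ((w N : ℚ_[p]) - ρ) * H₁.eval (w N : ℚ_[p]) := by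
    rw [← map_pow, hy, h1, hH₁]
    simp
  have hlt : ‖(w N : ℚ_[p]) - ρ‖ < δ := by
    rw [hw]
    refine lt_of_le_of_lt ?_ hN0
    apply zpow_le_zpow_right₀ hp1.le
    rw [hN]
    push_cast
    omega
  have h3 : ‖τ y‖ ^ 2 = (p : ℝ) ^ (-(N : ℤ)) * (p : ℝ) ^ (-v) := by
    rw [← norm_pow, h2, norm_mul, hw, hcont _ hlt, Padic.norm_eq_zpow_neg_valuation hne]
  have hy0 : τ y ≠ 0 := by
    intro h0
    rw [h0, norm_zero] at h3
    have : (0 : ℝ) < (p : ℝ) ^ (-(N : ℤ)) * (p : ℝ) ^ (-v) := by positivity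
    rw [← h3] at this
    norm_num at this
  rw [Padic.norm_eq_zpow_neg_valuation hy0, ← zpow_natCast, ← zpow_mul, ← zpow_add₀ hp0.ne'] at h3
  have h4 := zpow_right_injective₀ hp0 hp1.ne' h3
  have h5 : Odd ((N : ℤ) + v) := by
    have e : (N : ℤ) + v = ((c : ℤ) + v) + 2 * ((N0 : ℤ) + k) := by
      rw [hN]
      push_cast
      ring
    rw [e]
    exact hc.add_even ⟨(N0 : ℤ) + k, by ring⟩
  rw [Int.odd_iff] at h5
  push_cast at h4
  omega

end Pool.Agent.N683.HR
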