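import Pool.Agent.N683.HR.Trip

/-! The induction. -/

set_option autoImplicit false

namespace Pool.Agent.N683.HR

open IntermediateField WeierstrassCurve

section roots
variable {Ω : Type} [Field Ω] [IsAlgClosed Ω] [CharZero Ω]

theorem three_roots (A B : Ω) (hD : 4 * A ^ 3 + 27 * B ^ 2 ≠ 0) :
    ∃ e : Fin 3 → Ω, Function.Injective e ∧
      (∀ x, cub A B x = (x - e 0) * (x - e 1) * (x - e 2)) ∧
      ((e 0 - e 1) * (e 0 - e 2) * (e 1 - e 2)) ^ 2 = -4 * A ^ 3 - 27 * B ^ 2 := by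
  obtain ⟨e0, he0⟩ : ∃ e0 : Ω, cub A B e0 = 0 := by
    obtain ⟨z, hz⟩ := IsAlgClosed.exists_root (cubP A B) (by
      rw [Polynomial.degree_eq_natDegree, cubP_deg]
      · norm_num
      · intro h0
        have := cubP_deg (A := A) (B := B)
        rw [h0] at this
        simp at this)
    exact ⟨z, by rw [← cubP_eval]; exact hz⟩
  obtain ⟨s, hs⟩ := IsAlgClosed.exists_pow_nat_eq (e0 ^ 2 - 4 * (A + e0 ^ 2)) (n := 2) (by norm_num)
  obtain ⟨e1, he1⟩ : ∃ e1 : Ω, e1 = (-e0 + s) / 2 := ⟨_, rfl⟩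
  have h1 : 2 * e1 + e0 = s := by rw [he1]; ring
  have hA : A = -(e0 ^ 2 + e0 * e1 + e1 ^ 2) := by
    have h2 : (2 * e1 + e0) ^ 2 = e0 ^ 2 - 4 * (A + e0 ^ 2) := by rw [h1, hs]
    have h3 : (4 : Ω) * (A + (e0 ^ 2 + e0 * e1 + e1 ^ 2)) = 0 := by linear_combination h2
    have h4 := (mul_eq_zero.mp h3).resolve_left (by norm_num)
    linear_combination h4
  have hB : B = e0 * e1 * (e0 + e1) := by
    rw [cub, hA] at he0
    linear_combination he0
  have hdisc : ((e0 - e1) * (e0 - (-e0 - e1)) * (e1 - (-e0 - e1))) ^ 2 =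
      -4 * A ^ 3 - 27 * B ^ 2 := by
    rw [hA, hB]; ring
  have hne : (e0 - e1) * (e0 - (-e0 - e1)) * (e1 - (-e0 - e1)) ≠ 0 := by
    intro h0
    rw [h0] at hdisc
    apply hD
    linear_combination hdisc
  have h01 : e0 - e1 ≠ 0 := left_ne_zero_of_mul (left_ne_zero_of_mul hne)
  have h02 : e0 - (-e0 - e1) ≠ 0 := right_ne_zero_of_mul (left_ne_zero_of_mul hne)
  have h12 : e1 - (-e0 - e1) ≠ 0 := right_ne_zero_of_mul hne
  refine ⟨![e0, e1, -e0 - e1], ?_, ?_, ?_⟩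
  · intro i j hij
    fin_cases i <;> fin_cases j
    · rfl
    · exact absurd (sub_eq_zero.mpr hij) h01
    · exact absurd (sub_eq_zero.mpr hij) h02
    · exact absurd (sub_eq_zero.mpr hij.symm) h01
    · rfl
    · exact absurd (sub_eq_zero.mpr hij) h12
    · exact absurd (sub_eq_zero.mpr hij.symm) h02
    · exact absurd (sub_eq_zero.mpr hij.symm) h12
    · rfl
  · intro x
    change cub A B x = (x - e0) * (x - e1) * (x - (-e0 - e1))
    rw [cub, hA, hB]
    ring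
  · exact hdisc

end roots

section
variable {K Ω : Type} [Field K] [NumberField K] [Field Ω] [Algebra K Ω]

theorem good_root [IsAlgClosed Ω] [CharZero Ω] {A B : K} (hD : 4 * A ^ 3 + 27 * B ^ 2 ≠ 0)
    (L₀ : IntermediateField K Ω) [Normal K L₀]
    (hroots : ∀ e : Ω, cub (algebraMap K Ω A) (algebraMap K Ω B) e = 0 → e ∈ L₀)
    (U : Subgroup Gal(Ω/K)) (hU : Good (U.map (AlgEquiv.restrictNormalHom L₀))) :
    (∃ e : Ω, e ∈ L₀ ⊓ fixedField U ∧ cub (algebraMap K Ω A) (algebraMap K Ω B) e = 0) ∨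
      ∃ D : Ω, D ∈ L₀ ⊓ fixedField U ∧
        D ^ 2 = -4 * (algebraMap K Ω A) ^ 3 - 27 * (algebraMap K Ω B) ^ 2 := by
  have hD' : 4 * (algebraMap K Ω A) ^ 3 + 27 * (algebraMap K Ω B) ^ 2 ≠ 0 := by
    have h1 := (map_ne_zero (algebraMap K Ω)).mpr hD
    simpa only [map_add, map_mul, map_pow, map_ofNat] using h1
  obtain ⟨e, hinj, hfac, hdisc⟩ := three_roots _ _ hD'
  have hroot : ∀ i, cub (algebraMap K Ω A) (algebraMap K Ω B) (e i) = 0 := by
    intro i
    rw [hfac]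
    fin_cases i <;> simp
  have hmem : ∀ i, e i ∈ L₀ := fun i => hroots _ (hroot i)
  have hfix : ∀ z : L₀, (∀ a ∈ U.map (AlgEquiv.restrictNormalHom L₀), a z = z) →
      (z : Ω) ∈ L₀ ⊓ fixedField U := by
    intro z hz
    refine ⟨z.2, ?_⟩
    rw [SetLike.mem_coe, mem_fixedField_iff]
    intro u hu
    have h1 := hz _ ⟨u, hu, rfl⟩
    have h2 := congrArg (fun w : L₀ => (w : Ω)) h1
    simp only [AlgEquiv.restrictNormalHom_apply] at h2
    exact h2
  haveI : CharZero L₀ := charZero_of_injective_algebraMap (algebraMap K L₀).injective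
  have hperm : ∀ a ∈ U.map (AlgEquiv.restrictNormalHom L₀), ∀ i,
      ∃ j, a ((⟨e i, hmem i⟩ : L₀)) = (⟨e j, hmem j⟩ : L₀) := by
    rintro a - i
    have h1 : cub (algebraMap K L₀ A) (algebraMap K L₀ B) (⟨e i, hmem i⟩ : L₀) = 0 :=
      Subtype.ext (hroot i)
    have h2 := congrArg a h1
    rw [cub] at h2
    simp only [map_add, map_mul, map_pow, AlgEquiv.commutes, map_zero] at h2
    have h3 : cub (algebraMap K Ω A) (algebraMap K Ω B)
        ((a (⟨e i, hmem i⟩ : L₀) : L₀) : Ω) = 0 := congrArg (fun w : L₀ => (w : Ω)) h2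
    rw [hfac] at h3
    rcases mul_eq_zero.mp h3 with h4 | h4
    · rcases mul_eq_zero.mp h4 with h5 | h5
      · exact ⟨0, Subtype.ext (sub_eq_zero.mp h5)⟩
      · exact ⟨1, Subtype.ext (sub_eq_zero.mp h5)⟩
    · exact ⟨2, Subtype.ext (sub_eq_zero.mp h4)⟩
  rcases hU.three (fun i => (⟨e i, hmem i⟩ : L₀))
    (fun i j hij => hinj (congrArg (fun w : L₀ => (w : Ω)) hij)) hperm with ⟨i, hi⟩ | hDD
  · exact Or.inl ⟨e i, hfix _ hi, hroot i⟩
  · exact Or.inr ⟨_, hfix _ hDD, hdisc⟩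

variable [DecidableEq Ω]

theorem HasPts.mono {A B : K} {F F' : IntermediateField K Ω} (h : F ≤ F') {R : ℕ}
    (hP : HasPts A B F R) : HasPts A B F' R := by
  obtain ⟨P, hP, hr⟩ := hP
  refine ⟨P, hP, fun i => ?_⟩
  obtain ⟨P', hP'⟩ := hr i
  refine ⟨Affine.Point.map (W' := crv A B) (IntermediateField.inclusion h) P', ?_⟩
  rw [← hP', Affine.Point.map_map]
  rfl

/-- A new point. -/
theorem HasPts.succ [IsAlgClosed Ω] [CharZero Ω] [Algebra.IsAlgebraic K Ω] {A B : K}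
    (hD : 4 * A ^ 3 + 27 * B ^ 2 ≠ 0) {F₀ F L₀ : IntermediateField K Ω} (h₀ : F₀ ≤ L₀)
    (hF : F₀ ≤ F) {R : ℕ} (hP : HasPts A B F₀ R) {x r : Ω} (hx : x ∈ F₀)
    (hr : r ^ 2 = cub (algebraMap K Ω A) (algebraMap K Ω B) x) (hrF : r ∈ F) (hrL : r ∉ L₀)
    (hT : ∀ (h : ((crv A B).baseChange Ω).toAffine.Nonsingular x r) (n : ℕ), 0 < n →
      n • (Affine.Point.some x r h) ≠ 0) : HasPts A B F (R + 1) := by
  classical
  obtain ⟨P, hP, hPr⟩ := hP
  -- the point
  have hΔ : ((crv A B).baseChange Ω).Δ ≠ 0 := by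
    have h1 := (map_ne_zero (algebraMap K Ω)).mpr hD
    simp only [map_add, map_mul, map_pow, map_ofNat] at h1
    rw [bc_eq]
    intro h0
    apply h1
    simp only [WeierstrassCurve.Δ, WeierstrassCurve.b₂, WeierstrassCurve.b₄, WeierstrassCurve.b₆,
      WeierstrassCurve.b₈, crv] at h0
    have h2 : (-16 : Ω) * (4 * (algebraMap K Ω A) ^ 3 + 27 * (algebraMap K Ω B) ^ 2) = 0 := by
      linear_combination h0
    exact (mul_eq_zero.mp h2).resolve_left (by norm_num)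
  have heq : ((crv A B).baseChange Ω).toAffine.Equation x r := by
    rw [bc_eq, Affine.equation_iff]
    simp only [crv]
    rw [cub] at hr
    linear_combination hr
  have hns : ((crv A B).baseChange Ω).toAffine.Nonsingular x r :=
    (Affine.equation_iff_nonsingular_of_Δ_ne_zero hΔ).mp heq
  -- the automorphism
  haveI : CharZero L₀ := charZero_of_injective_algebraMap (algebraMap K L₀).injective
  haveI : Algebra.IsAlgebraic L₀ Ω := Algebra.IsAlgebraic.tower_top (K := K) L₀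
  haveI : IsAlgClosure L₀ Ω := ⟨inferInstance, inferInstance⟩
  haveI : IsGalois L₀ Ω := IsAlgClosure.isGalois L₀ Ω
  have hxL : x ∈ L₀ := h₀ hx
  have hr2 : r ^ 2 ∈ L₀ := by
    rw [hr, cub]
    exact L₀.add_mem (L₀.add_mem (pow_mem hxL 3) (L₀.mul_mem (L₀.algebraMap_mem A) hxL))
      (L₀.algebraMap_mem B)
  obtain ⟨τ, hτ⟩ : ∃ τ : Gal(Ω/L₀), τ r ≠ r := by
    by_contra hcon
    push Not at hcon
    obtain ⟨y, hy⟩ := (InfiniteGalois.mem_range_algebraMap_iff_fixed r).mpr hcon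
    exact hrL (hy ▸ y.2)
  have hτr : τ r = -r := by
    have h1 : (τ r) ^ 2 = r ^ 2 := by
      rw [← map_pow]
      exact τ.commutes ⟨r ^ 2, hr2⟩
    exact (sq_eq_sq_iff_eq_or_eq_neg.mp h1).resolve_left hτ
  have hτx : ∀ z : L₀, τ z = z := fun z => τ.commutes z
  set σ : Ω →ₐ[K] Ω := (AlgEquiv.restrictScalars K τ).toAlgHom with hσ
  have hσa : ∀ z, σ z = τ z := fun z => rfl
  refine ⟨Fin.cons (Affine.Point.some x r hns) P,
    ind (Affine.Point.map (W' := crv A B) σ) P _ hP ?_ ?_ (hT hns), ?_⟩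
  · intro i
    obtain ⟨P', hP'⟩ := hPr i
    have hcomp : σ.comp F₀.val = F₀.val := by
      ext z
      exact hτx ⟨z, h₀ z.2⟩
    rw [← hP', Affine.Point.map_map, hcomp]
  · rw [Affine.Point.map_some, Affine.Point.neg_some]
    simp only [Affine.Point.some.injEq]
    constructor
    · exact hτx ⟨x, hxL⟩
    · rw [hσa, hτr, bc_eq]
      simp [Affine.negY, crv]
  · intro i
    refine Fin.cases ?_ (fun j => ?_) i
    · rw [Fin.cons_zero]
      have hns' : ((crv A B).baseChange F).toAffine.Nonsingular ⟨x, hF hx⟩ ⟨r, hrF⟩ := by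
        exact (Affine.baseChange_nonsingular (crv A B) (f := F.val) F.val.injective ..).mp hns
      exact ⟨Affine.Point.some _ _ hns', rfl⟩
    · rw [Fin.cons_succ]
      obtain ⟨P', hP'⟩ := hPr j
      refine ⟨Affine.Point.map (W' := crv A B) (IntermediateField.inclusion hF) P', ?_⟩
      rw [← hP', Affine.Point.map_map]
      rfl

end

end Pool.Agent.N683.HR
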