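import Mathlib

/-!
# Project HR: statements

Every automorphism of the algebraic closure fixes a new point of an elliptic curve.
-/

set_option autoImplicit false

namespace Pool.Agent.N683.HR

open Polynomial

/-- The curve `y² = x³ + A x + B`. -/
def crv {F : Type} [CommRing F] (A B : F) : WeierstrassCurve F := ⟨0, 0, 0, A, B⟩

/-- The value `x³ + A x + B`. -/
def cub {F : Type} [CommRing F] (A B x : F) : F := x ^ 3 + A * x + B

/-- `H` has a cyclic normal subgroup `C` such that every element of `H` has an odd power in `C`. -/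
def Good {G : Type} [Group G] (H : Subgroup G) : Prop :=
  ∃ C : Subgroup G, C ≤ H ∧ IsCyclic C ∧ (∀ h ∈ H, ∀ c ∈ C, h * c * h⁻¹ ∈ C) ∧
    ∀ h ∈ H, ∃ k : ℕ, Odd k ∧ h ^ k ∈ C

/-- **Task SQ.** A separable polynomial over a number field `F` takes values at elements of `F`,
outside of any given finite set, that are not squares in a given finite extension `L`. -/
def S_SQ : Prop :=
  ∀ (F L : Type) [Field F] [NumberField F] [Field L] [NumberField L] [Algebra F L] (G : F[X]),
    G.Separable → 1 ≤ G.natDegree → ∀ T : Set F, T.Finite →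
      ∃ w : F, w ∉ T ∧ ∀ y : L, y ^ 2 ≠ algebraMap F L (G.eval w)

/-- **Task TOR.** All but finitely many `x ∈ F` are not the `x`-coordinate of a torsion point over
any extension. -/
def S_TOR : Prop :=
  ∀ (F : Type) [Field F] [NumberField F] (A B : F), 4 * A ^ 3 + 27 * B ^ 2 ≠ 0 →
    ∃ T : Set F, T.Finite ∧ ∀ x : F, x ∉ T →
      ∀ (Ω : Type) [Field Ω] [DecidableEq Ω] [Algebra F Ω] (y : Ω)
        (h : (crv (algebraMap F Ω A) (algebraMap F Ω B)).toAffine.Nonsingular
          (algebraMap F Ω x) y) (n : ℕ), 0 < n →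
        n • (WeierstrassCurve.Affine.Point.some (algebraMap F Ω x) y h) ≠ 0

end Pool.Agent.N683.HR
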