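import Mathlib
import Pool.Agent.N683.HR.Stm
import Pool.Agent.TH910.LS.Dup

/-!
# Project HR, task TOR (helper319)

x-coordinates of torsion points.
-/

set_option autoImplicit false

open Height WeierstrassCurve

namespace Pool.Agent.N683.HR

section field

variable {F : Type} [Field F] [NumberField F]

/-- the duplication map on x-coordinates -/
noncomputable def dbl (A B x : F) : F :=
  (x ^ 4 - 2 * A * x ^ 2 - 8 * B * x + A ^ 2) / (4 * cub A B x)

lemma dbl_height {A B : F} (h : 4 * A ^ 3 + 27 * B ^ 2 ≠ 0) : ∃ C : ℝ, 0 ≤ C ∧ ∀ x : F,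
    C < logHeight₁ x → cub A B x ≠ 0 ∧ logHeight₁ x < logHeight₁ (dbl A B x) := by
  set D := 4 * A ^ 3 + 27 * B ^ 2 with hD
  have h4 : (4 : F) ≠ 0 := by norm_num
  obtain ⟨C, hC0, hC⟩ := Pool.Agent.TH910.LS.low_deg4 (K := F)
    ![12 * B * (A ^ 3 + 8 * B ^ 2) / (4 * D), 4 * A * (3 * A ^ 3 + 22 * B ^ 2) / (4 * D),
      -(4 * A ^ 2 * B) / (4 * D), 1]
    ![-(3 * A ^ 2 * (A ^ 3 + 8 * B ^ 2)) / (4 * D), 2 * B * (13 * A ^ 3 + 96 * B ^ 2) / (4 * D),
      A * (5 * A ^ 3 + 32 * B ^ 2) / (4 * D), A ^ 2 * B / (4 * D)]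
    ![16 * A / (4 * D), 0, 12 / (4 * D), 0]
    ![27 * B / (4 * D), 5 * A / (4 * D), 0, -3 / (4 * D)]
  refine ⟨C, hC0, fun x hx => ?_⟩
  have h1 := hC x 1 (x ^ 4 - 2 * A * x ^ 2 - 8 * B * x + A ^ 2) (4 * cub A B x)
    (by
      rw [Pool.Agent.TH910.LS.cub_eval, Pool.Agent.TH910.LS.cub_eval]
      simp only [Matrix.cons_val_zero, Matrix.cons_val_one, Matrix.cons_val]
      unfold cub
      field_simp
      rw [hD]
      ring)
    (by
      rw [Pool.Agent.TH910.LS.cub_eval, Pool.Agent.TH910.LS.cub_eval]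
      simp only [Matrix.cons_val_zero, Matrix.cons_val_one, Matrix.cons_val]
      unfold cub
      field_simp
      rw [hD]
      ring)
  rw [← logHeight₁_eq_logHeight] at h1
  have h2 : cub A B x ≠ 0 := by
    intro h3
    rw [h3, mul_zero] at h1
    have h5 : logHeight ![x ^ 4 - 2 * A * x ^ 2 - 8 * B * x + A ^ 2, (0 : F)] = 0 := by
      rw [← logHeight₁_div_eq_logHeight]
      simp
    rw [h5] at h1
    linarith
  refine ⟨h2, ?_⟩
  rw [← logHeight₁_div_eq_logHeight] at h1
  change 4 * logHeight₁ x - C ≤ logHeight₁ (dbl A B x) at h1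
  linarith

end field

/-- doubling over an extension -/
lemma dbl_point {F : Type} [Field F] [NumberField F] {A B x : F} (hx : cub A B x ≠ 0)
    {Ω : Type} [Field Ω] [DecidableEq Ω] [Algebra F Ω] {y : Ω}
    (h : (crv (algebraMap F Ω A) (algebraMap F Ω B)).toAffine.Nonsingular (algebraMap F Ω x) y) :
    ∃ (y' : Ω) (h' : (crv (algebraMap F Ω A) (algebraMap F Ω B)).toAffine.Nonsingular
      (algebraMap F Ω (dbl A B x)) y'),
      Affine.Point.some (algebraMap F Ω x) y h + Affine.Point.some (algebraMap F Ω x) y h =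
        Affine.Point.some (algebraMap F Ω (dbl A B x)) y' h' := by
  have inj := (algebraMap F Ω).injective
  have hch : CharZero Ω := charZero_of_injective_algebraMap inj
  have e : y ^ 2 = algebraMap F Ω (cub A B x) := by
    have h1 := h.1
    rw [Affine.equation_iff] at h1
    simp only [crv] at h1
    unfold cub
    simp only [map_add, map_mul, map_pow]
    linear_combination h1
  have hc0 : algebraMap F Ω (cub A B x) ≠ 0 := by
    rw [Ne, map_eq_zero_iff _ inj]
    exact hx
  have hy0 : y ≠ 0 := by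
    intro h0
    apply hc0
    rw [← e, h0]
    ring
  have hneg : (crv (algebraMap F Ω A) (algebraMap F Ω B)).toAffine.negY (algebraMap F Ω x) y = -y := by
    simp [Affine.negY, crv]
  have hy : y ≠ (crv (algebraMap F Ω A) (algebraMap F Ω B)).toAffine.negY (algebraMap F Ω x) y := by
    rw [hneg]
    intro h0
    apply hy0
    have : (2 : Ω) * y = 0 := by linear_combination h0
    rcases mul_eq_zero.1 this with h3 | h3
    · norm_num at h3
    · exact h3
  have hX : (crv (algebraMap F Ω A) (algebraMap F Ω B)).toAffine.addX (algebraMap F Ω x)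
      (algebraMap F Ω x) ((crv (algebraMap F Ω A) (algebraMap F Ω B)).toAffine.slope
        (algebraMap F Ω x) (algebraMap F Ω x) y y) = algebraMap F Ω (dbl A B x) := by
    rw [Affine.slope_of_Y_ne rfl hy, hneg]
    unfold dbl
    simp only [Affine.addX, crv, map_div₀, map_add, map_sub, map_mul, map_pow, map_ofNat]
    rw [← e]
    have e2 : (algebraMap F Ω x) ^ 3 + algebraMap F Ω A * algebraMap F Ω x + algebraMap F Ω B =
        y ^ 2 := by
      rw [e]
      unfold cub
      simp only [map_add, map_mul, map_pow]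
    rw [show y - -y = 2 * y by ring]
    field_simp
    linear_combination (32 * algebraMap F Ω x) * e2
  rw [Affine.Point.add_self_of_Y_ne hy]
  have h' := Affine.nonsingular_add h h (fun hxy => hy hxy.2)
  rw [hX] at h'
  refine ⟨_, h', ?_⟩
  simp only [Affine.Point.some.injEq]
  exact ⟨hX, trivial⟩

/-- Task TOR -/
theorem tor : S_TOR := by
  intro F _ _ A B hAB
  obtain ⟨C, hC0, hC⟩ := dbl_height hAB
  refine ⟨{x : F | logHeight₁ x ≤ C}, Northcott.finite_le C, fun x hx Ω _ _ _ y h n hn hP => ?_⟩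
  have hx' : C < logHeight₁ x := not_le.1 hx
  set P := Affine.Point.some (algebraMap F Ω x) y h with hPdef
  have inj := (algebraMap F Ω).injective
  have key : ∀ k : ℕ, C < logHeight₁ ((dbl A B)^[k] x) ∧
      ∃ (y' : Ω) (h' : (crv (algebraMap F Ω A) (algebraMap F Ω B)).toAffine.Nonsingular
        (algebraMap F Ω ((dbl A B)^[k] x)) y'),
        2 ^ k • P = Affine.Point.some (algebraMap F Ω ((dbl A B)^[k] x)) y' h' := by
    intro k
    induction k with
    | zero => exact ⟨hx', y, h, by rw [pow_zero, one_smul]; rfl⟩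
    | succ k ih =>
      obtain ⟨h1, y1, n1, e1⟩ := ih
      obtain ⟨h2, h3⟩ := hC _ h1
      rw [Function.iterate_succ_apply']
      refine ⟨h1.trans h3, ?_⟩
      obtain ⟨y2, n2, e2⟩ := dbl_point h2 n1
      refine ⟨y2, n2, ?_⟩
      rw [← e2, ← e1, pow_succ, mul_smul, two_smul, smul_add]
  have hmono : StrictMono fun k : ℕ => logHeight₁ ((dbl A B)^[k] x) := by
    refine strictMono_nat_of_lt_succ fun k => ?_
    rw [Function.iterate_succ_apply']
    exact (hC _ (key k).1).2
  -- the multiples of P are finitely many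
  have hfin : (Set.range fun k : ℕ => 2 ^ k • P).Finite := by
    refine ((Finset.range n).finite_toSet.image fun m : ℕ => m • P).subset ?_
    rintro _ ⟨k, rfl⟩
    refine ⟨2 ^ k % n, by simpa using Nat.mod_lt _ hn, ?_⟩
    beta_reduce
    conv_rhs => rw [← Nat.mod_add_div (2 ^ k) n, add_smul, mul_comm, mul_smul, hP, smul_zero,
      add_zero]
  have hinj : Function.Injective fun k : ℕ => 2 ^ k • P := by
    intro k l hkl
    beta_reduce at hkl
    obtain ⟨-, y1, n1, e1⟩ := key k
    obtain ⟨-, y2, n2, e2⟩ := key l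
    rw [e1, e2] at hkl
    rw [Affine.Point.some.injEq] at hkl
    have h4 := inj hkl.1
    exact hmono.injective (congrArg logHeight₁ h4)
  exact Set.infinite_range_of_injective hinj hfin

end Pool.Agent.N683.HR
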