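import Pool.Agent.N683.HR.Stm3

/-!
# Project HR: the points of the short Weierstrass model

The isomorphism `(x, y) ↦ (36 x + 3 b₂, 108 (2 y + a₁ x + a₃))` of a Weierstrass curve with its
short model `y² = x³ - 27 c₄ x - 54 c₆`.
-/

set_option autoImplicit false
set_option linter.all false

open WeierstrassCurve WeierstrassCurve.Affine

namespace Pool.Agent.N683.HR

/-- `W` is the short model of `E` -/
structure IsShort {L : Type} [Field L] (E W : WeierstrassCurve.Affine L) : Prop where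
  w1 : W.a₁ = 0
  w2 : W.a₂ = 0
  w3 : W.a₃ = 0
  w4 : W.a₄ = -27 * E.c₄
  w6 : W.a₆ = -54 * E.c₆
  two : (2 : L) ≠ 0
  three : (3 : L) ≠ 0

/-- the first coordinate -/
def mx {L : Type} [Field L] (E : WeierstrassCurve.Affine L) (x : L) : L :=
  36 * x + 3 * (E.a₁ ^ 2 + 4 * E.a₂)

/-- the second coordinate -/
def my {L : Type} [Field L] (E : WeierstrassCurve.Affine L) (x y : L) : L :=
  216 * y + 108 * E.a₁ * x + 108 * E.a₃

section tr

variable {L : Type} [Field L] {E W : WeierstrassCurve.Affine L} (h : IsShort E W)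

include h

theorem IsShort.n36 : (36 : L) ≠ 0 := by
  have : (36 : L) = 2 ^ 2 * 3 ^ 2 := by norm_num
  rw [this]; exact mul_ne_zero (pow_ne_zero _ h.two) (pow_ne_zero _ h.three)

theorem IsShort.n216 : (216 : L) ≠ 0 := by
  have : (216 : L) = 2 ^ 3 * 3 ^ 3 := by norm_num
  rw [this]; exact mul_ne_zero (pow_ne_zero _ h.two) (pow_ne_zero _ h.three)

theorem IsShort.n1296 : (1296 : L) ≠ 0 := by
  have : (1296 : L) = 2 ^ 4 * 3 ^ 4 := by norm_num
  rw [this]; exact mul_ne_zero (pow_ne_zero _ h.two) (pow_ne_zero _ h.three)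

theorem IsShort.n46656 : (46656 : L) ≠ 0 := by
  have : (46656 : L) = 2 ^ 6 * 3 ^ 6 := by norm_num
  rw [this]; exact mul_ne_zero (pow_ne_zero _ h.two) (pow_ne_zero _ h.three)

theorem IsShort.equation {x y : L} :
    W.Equation (mx E x) (my E x y) ↔ E.Equation x y := by
  rw [Affine.equation_iff, Affine.equation_iff, h.w1, h.w2, h.w3, h.w4, h.w6]
  simp only [mx, my, WeierstrassCurve.c₄, WeierstrassCurve.c₆, WeierstrassCurve.b₂,
    WeierstrassCurve.b₄, WeierstrassCurve.b₆]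
  constructor
  · intro e
    apply mul_left_cancel₀ h.n46656
    linear_combination e
  · intro e
    linear_combination 46656 * e

theorem IsShort.nonsingular {x y : L} :
    W.Nonsingular (mx E x) (my E x y) ↔ E.Nonsingular x y := by
  rw [Affine.nonsingular_iff, Affine.nonsingular_iff, h.equation, h.w1, h.w2, h.w3, h.w4]
  refine and_congr_right fun _ => ?_
  rw [← not_iff_not]
  push Not
  simp only [mx, my, WeierstrassCurve.c₄, WeierstrassCurve.b₂, WeierstrassCurve.b₄]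
  constructor
  · rintro ⟨e1, e2⟩
    have e3 : y = -y - E.a₁ * x - E.a₃ := by
      apply mul_left_cancel₀ h.n216
      linear_combination e2
    refine ⟨?_, e3⟩
    apply mul_left_cancel₀ h.n1296
    linear_combination e1 + 648 * E.a₁ * e3
  · rintro ⟨e1, e2⟩
    refine ⟨?_, ?_⟩
    · linear_combination 1296 * e1 - 648 * E.a₁ * e2
    · linear_combination 216 * e2

omit h in
/-- The isomorphism. -/
def trs (h : IsShort E W) : E.Point → W.Point
  | .zero => .zero
  | .some x y hxy => .some (mx E x) (my E x y) (h.nonsingular.2 hxy)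

theorem IsShort.negY (x y : L) : W.negY (mx E x) (my E x y) = my E x (E.negY x y) := by
  simp only [Affine.negY, h.w1, h.w3, mx, my]
  ring

omit h in
theorem mx_sub (x₁ x₂ : L) : mx E x₁ - mx E x₂ = 36 * (x₁ - x₂) := by
  simp only [mx]; ring

omit h in
theorem my_sub (x y₁ y₂ : L) : my E x y₁ - my E x y₂ = 216 * (y₁ - y₂) := by
  simp only [my]; ring

theorem IsShort.mx_inj {x₁ x₂ : L} (e : mx E x₁ = mx E x₂) : x₁ = x₂ := by
  have h1 := mx_sub (E := E) x₁ x₂
  rw [e, sub_self] at h1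
  rcases mul_eq_zero.1 h1.symm with h2 | h2
  · exact absurd h2 h.n36
  · exact sub_eq_zero.1 h2

theorem IsShort.my_inj {x y₁ y₂ : L} (e : my E x y₁ = my E x y₂) : y₁ = y₂ := by
  have h1 := my_sub (E := E) x y₁ y₂
  rw [e, sub_self] at h1
  rcases mul_eq_zero.1 h1.symm with h2 | h2
  · exact absurd h2 h.n216
  · exact sub_eq_zero.1 h2

theorem IsShort.slope [DecidableEq L] {x₁ x₂ y₁ y₂ : L} (h1 : E.Equation x₁ y₁)
    (h2 : E.Equation x₂ y₂) (hxy : ¬ (x₁ = x₂ ∧ y₁ = E.negY x₂ y₂)) :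
    W.slope (mx E x₁) (mx E x₂) (my E x₁ y₁) (my E x₂ y₂) =
      6 * E.slope x₁ x₂ y₁ y₂ + 3 * E.a₁ := by
  have h8 := h.n216
  have h4 := h.n36
  by_cases hx : x₁ = x₂
  · have hy : y₁ ≠ E.negY x₂ y₂ := fun hy => hxy ⟨hx, hy⟩
    have hyy : y₁ = y₂ := Affine.Y_eq_of_Y_ne h1 h2 hx hy
    subst hx
    subst hyy
    rw [Affine.slope_of_Y_ne rfl hy]
    have hy' : my E x₁ y₁ ≠ W.negY (mx E x₁) (my E x₁ y₁) := by
      rw [h.negY]
      intro e
      exact hy (h.my_inj e)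
    rw [Affine.slope_of_Y_ne rfl hy']
    have d1 : y₁ - E.negY x₁ y₁ ≠ 0 := sub_ne_zero.2 hy
    have d2 : my E x₁ y₁ - W.negY (mx E x₁) (my E x₁ y₁) = 216 * (y₁ - E.negY x₁ y₁) := by
      rw [h.negY, my_sub]
    rw [d2, h.w1, h.w2, h.w4, div_eq_iff (mul_ne_zero h8 d1), add_mul]
    have d3 : 6 * ((3 * x₁ ^ 2 + 2 * E.a₂ * x₁ + E.a₄ - E.a₁ * y₁) / (y₁ - E.negY x₁ y₁)) *
        (216 * (y₁ - E.negY x₁ y₁)) = 1296 * (3 * x₁ ^ 2 + 2 * E.a₂ * x₁ + E.a₄ - E.a₁ * y₁) := by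
      field_simp
      ring
    rw [d3]
    simp only [Affine.negY, mx, my, WeierstrassCurve.c₄, WeierstrassCurve.b₂,
      WeierstrassCurve.b₄]
    ring
  · have hx' : mx E x₁ ≠ mx E x₂ := fun e => hx (h.mx_inj e)
    rw [Affine.slope_of_X_ne hx, Affine.slope_of_X_ne hx']
    have d1 : x₁ - x₂ ≠ 0 := sub_ne_zero.2 hx
    rw [mx_sub, div_eq_iff (mul_ne_zero h4 d1)]
    simp only [my]
    field_simp
    ring

theorem IsShort.addX (x₁ x₂ l : L) :
    W.addX (mx E x₁) (mx E x₂) (6 * l + 3 * E.a₁) = mx E (E.addX x₁ x₂ l) := by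
  simp only [Affine.addX, h.w1, h.w2, mx]
  ring

theorem IsShort.addY (x₁ x₂ y₁ l : L) :
    W.addY (mx E x₁) (mx E x₂) (my E x₁ y₁) (6 * l + 3 * E.a₁) =
      my E (E.addX x₁ x₂ l) (E.addY x₁ x₂ y₁ l) := by
  simp only [Affine.addY, Affine.negAddY]
  rw [h.addX, ← h.negY]
  congr 1
  simp only [mx, my]
  ring

theorem trs_add [DecidableEq L] (P Q : E.Point) : trs h (P + Q) = trs h P + trs h Q := by
  rcases P with _ | ⟨x₁, y₁, hP⟩
  · rw [← Point.zero_def, zero_add]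
    show _ = (0 : W.Point) + _
    rw [zero_add]
  rcases Q with _ | ⟨x₂, y₂, hQ⟩
  · rw [← Point.zero_def, add_zero]
    show _ = _ + (0 : W.Point)
    rw [add_zero]
  by_cases hxy : x₁ = x₂ ∧ y₁ = E.negY x₂ y₂
  · rw [Point.add_of_Y_eq hxy.1 hxy.2]
    show (0 : W.Point) = Point.some (mx E x₁) (my E x₁ y₁) _ +
      Point.some (mx E x₂) (my E x₂ y₂) _
    rw [Point.add_of_Y_eq (by rw [hxy.1]) (by rw [h.negY, hxy.2, hxy.1])]
  · have hxy' : ¬ (mx E x₁ = mx E x₂ ∧ my E x₁ y₁ = W.negY (mx E x₂) (my E x₂ y₂)) := by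
      rintro ⟨e1, e2⟩
      have e3 : x₁ = x₂ := h.mx_inj e1
      refine hxy ⟨e3, ?_⟩
      rw [h.negY, e3] at e2
      exact h.my_inj e2
    rw [Point.add_some hxy]
    show Point.some _ _ _ = Point.some (mx E x₁) (my E x₁ y₁) _ +
      Point.some (mx E x₂) (my E x₂ y₂) _
    rw [Point.add_some hxy']
    simp only [h.slope hP.1 hQ.1 hxy, h.addX, h.addY]

theorem trs_zero : trs h (0 : E.Point) = 0 := rfl

theorem trs_inj {P Q : E.Point} (e : trs h P = trs h Q) : P = Q := by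
  rcases P with _ | ⟨x₁, y₁, hP⟩ <;> rcases Q with _ | ⟨x₂, y₂, hQ⟩
  · rfl
  · exact absurd e.symm (Point.some_ne_zero _)
  · exact absurd e (Point.some_ne_zero _)
  · have h' := Point.some.inj e
    have e1 : x₁ = x₂ := h.mx_inj h'.1
    have e2 : y₁ = y₂ := by
      have h2 := h'.2
      rw [e1] at h2
      exact h.my_inj h2
    subst e1
    subst e2
    rfl

theorem trs_surj (Q : W.Point) : ∃ P, trs h P = Q := by
  rcases Q with _ | ⟨x, y, hQ⟩
  · exact ⟨0, rfl⟩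
  · have h4 := h.n36
    have h8 := h.n216
    obtain ⟨u, hu⟩ : ∃ u, mx E u = x :=
      ⟨(x - 3 * (E.a₁ ^ 2 + 4 * E.a₂)) / 36, by simp only [mx]; field_simp; ring⟩
    obtain ⟨v, hv⟩ : ∃ v, my E u v = y :=
      ⟨(y - 108 * E.a₁ * u - 108 * E.a₃) / 216, by simp only [my]; field_simp; ring⟩
    subst hu
    subst hv
    exact ⟨Point.some u v (h.nonsingular.1 hQ), rfl⟩

end tr

theorem iso : S_ISO := by
  intro F _ _ _ E hE
  have h : IsShort E.toAffine (crv (-27 * E.c₄) (-54 * E.c₆)).toAffine :=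
    ⟨rfl, rfl, rfl, rfl, rfl, by norm_num, by norm_num⟩
  let f : E.toAffine.Point →+ (crv (-27 * E.c₄) (-54 * E.c₆)).toAffine.Point :=
    { toFun := trs h
      map_zero' := rfl
      map_add' := trs_add h }
  have hf : Function.Bijective f := ⟨fun P Q e => trs_inj h e, fun Q => trs_surj h Q⟩
  let g := AddEquiv.ofBijective f hf
  exact ⟨g.symm.toAddMonoidHom, g.symm.injective⟩

end Pool.Agent.N683.HR
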