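import Pool.Agent.N683.HR.Asm
import Pool.Agent.N683.HR.Iso

/-! Relations whose coefficient is a power of 2. -/

set_option autoImplicit false

namespace Pool.Agent.N683.HR

open NumberField IsDedekindDomain WeierstrassCurve
open Pool.Agent.R433.MD (Ext LL LL_ne_zero exists_minimal)
open Pool.Agent.H341R2.EC (IsMinAt)
open Pool.Agent.R333.BR (L_rel)
open Pool.Agent.N19.BR.Def
open Pool.Agent.N19.BR (IsRel hyperOver_of continues_iff minimalModels_iff prod_eq exists_common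
  fx_of_isRel)
open scoped Classical

/-- combination of the relations for all odd prime numbers -/
theorem two_rel {K : Type} [Field K] [NumberField K] {P : Ext K → Prop}
    (h : ∀ p : ℕ, p.Prime → p ≠ 2 → Pool.Agent.N19.BR.Good p K P) :
    ∃ (ι : Type) (_ : Fintype ι) (Z : ι → Ext K) (e : ι → ℤ) (a : ℕ),
      IsRel K Z e (2 ^ a) ∧ ∀ i, P (Z i) := by
  classical
  let A : Set ℕ := {m | 0 < m ∧ ∃ (ι : Type) (_ : Fintype ι) (Z : ι → Ext K) (e : ι → ℤ),
    IsRel K Z e m ∧ ∀ i, P (Z i)}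
  have hA : A.Nonempty := by
    obtain ⟨ι, hι, Z, e, m, hm, hr, hP⟩ := h 3 Nat.prime_three (by norm_num)
    exact ⟨m, Nat.pos_of_ne_zero fun h0 => hm (h0 ▸ dvd_zero 3), ι, hι, Z, e, hr, hP⟩
  obtain ⟨hpos, ι, hι, Z, e, hr, hP⟩ := Nat.sInf_mem hA
  have hmin : ∀ m ∈ A, sInf A ≤ m := fun m hm => Nat.sInf_le hm
  have h2 : ∀ {q : ℕ}, q.Prime → q ∣ sInf A → q = 2 := by
    intro q hq hqd
    by_contra hq2
    obtain ⟨κ, hκ, Y, d, k, hk, hY, hPY⟩ := h q hq hq2
    have hg : IsRel K (Sum.elim Z Y) (Sum.elim (fun i => (sInf A).gcdA k * e i)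
        (fun j => (sInf A).gcdB k * d j)) ((sInf A).gcd k) := by
      refine hr.add hY ?_
      rw [Nat.gcd_eq_gcd_ab (sInf A) k]
      ring
    have hgA : (sInf A).gcd k ∈ A := by
      refine ⟨Nat.gcd_pos_of_pos_left _ hpos, _, _, _, _, hg, ?_⟩
      rintro (i | j)
      · exact hP i
      · exact hPY j
    have h2 := hmin _ hgA
    have h3 : (sInf A).gcd k = sInf A :=
      le_antisymm (Nat.le_of_dvd hpos (Nat.gcd_dvd_left _ _)) h2
    exact hk (hqd.trans (h3 ▸ Nat.gcd_dvd_right _ _))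
  have h3 := Nat.eq_prime_pow_of_unique_prime_dvd (n := sInf A) (p := 2) hpos.ne' h2
  refine ⟨ι, hι, Z, e, (sInf A).primeFactorsList.length, ?_, hP⟩
  rw [← h3]
  exact hr

/-- For some odd prime number `p`, the Galois group of `L F / F`, `F = Z.F`, is `p`-hyperelementary, all
divisors of `n` prime to `p` divide the local degrees of `F / K` at the primes above `S`; and `F` has at
most two real places. -/
def OddClass {K : Type} [Field K] [NumberField K] (L : Type) [Field L] [Algebra K L]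
    (S : Set (HeightOneSpectrum (𝓞 K))) (n : ℕ) (Z : Ext K) : Prop :=
  ∃ p : ℕ, p.Prime ∧ p ≠ 2 ∧ HyperelementaryOver p L Z ∧
    (∀ k : ℕ, k ∣ n → k.Coprime p → LocalDegreesDivisible S k Z) ∧ AtMostTwoRealPlaces Z

/-- The list of fields for the continuation. -/
theorem list_two (K : Type) [Field K] [NumberField K] (E : WeierstrassCurve K)
    (hE : E.IsElliptic) (h0 : E.j ≠ 0) (h1 : E.j ≠ 1728) (L : Type) [Field L] [NumberField L]
    [Algebra K L] [IsGalois K L] (S : Set (HeightOneSpectrum (𝓞 K))) (hS : S.Finite) (n : ℕ)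
    (hn : n ≠ 0) (R : ℕ) :
    ∃ (k : ℕ) (Z : Fin k → Ext K) (e : Fin k → ℤ) (a : ℕ), IsRel K Z e (2 ^ a) ∧ ∀ i,
        (R : Cardinal) ≤ Module.rank ℤ (E.map (algebraMap K (Z i).F)).toAffine.Point ∧
        OddClass L S n (Z i) := by
  obtain ⟨ι, hι, Z, e, a, hr, hP⟩ := two_rel (K := K) (P := fun Z =>
      (R : Cardinal) ≤ Module.rank ℤ (E.map (algebraMap K Z.F)).toAffine.Point ∧
        OddClass L S n Z) (by
    intro p hp hp2
    have hc0 : n / p ^ n.factorization p ≠ 0 :=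
      (Nat.div_pos (Nat.le_of_dvd (Nat.pos_of_ne_zero hn) (Nat.ordProj_dvd n p))
        (pow_pos hp.pos _)).ne'
    refine (rels iso (Or.inr hp) hp2 K L hS hc0 (fun _ => (Nat.coprime_ordCompl hp hn).symm) E hE
      h0 h1 R).mono ?_
    rintro Z ⟨h2, h3, h4, h5⟩
    refine ⟨h5.le, p, hp, hp2, hyperOver_of hp h2, fun k hk hkp v hv w hw hwv => ?_, h4⟩
    refine dvd_trans ?_ (h3 v hv w hw hwv)
    have h6 : k ∣ p ^ n.factorization p * (n / p ^ n.factorization p) := by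
      rw [Nat.ordProj_mul_ordCompl_eq_self]
      exact hk
    exact (Nat.Coprime.pow_right _ hkp).dvd_of_dvd_mul_left h6)
  let f : Fin (Fintype.card ι) ≃ ι := (Fintype.equivFin ι).symm
  exact ⟨Fintype.card ι, fun j => Z (f j), fun j => e (f j), a, hr.reindex f, fun j => hP (f j)⟩

/-- relations of extensions give relations of L-functions -/
theorem L_of_rel {K : Type} [Field K] [NumberField K] {ι : Type} [Fintype ι] {Z : ι → Ext K}
    {e : ι → ℤ} {m : ℕ} (h : IsRel K Z e m) {E : WeierstrassCurve K} (hE : E.IsElliptic)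
    (V0 : HeightOneSpectrum (𝓞 K) → WeierstrassCurve (𝓞 K)) (hV0 : MinimalModels E V0)
    (V : ∀ i, HeightOneSpectrum (𝓞 (Z i).F) → WeierstrassCurve (𝓞 (Z i).F))
    (hV : ∀ i, MinimalModels (E.map (algebraMap K (Z i).F)) (V i)) :
    ∃ ρ : ℂ → ℂ, MeromorphicOn ρ Set.univ ∧ ∀ s : ℂ, 3 / 2 < s.re →
      ρ s ≠ 0 ∧ (∏' v, factor V0 s v) ^ m = ρ s * ∏ i, (∏' v, factor (V i) s v) ^ e i := by
  obtain ⟨L, _, _, _, _, hL⟩ := exists_common Z
  have f : ∀ i, (Z i).F →ₐ[K] L := fun i => (hL i).some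
  obtain ⟨ρ, h1, -, h2⟩ := L_rel Z f e m (fx_of_isRel h f) E hE V0
    ((minimalModels_iff E V0).1 hV0) V fun i => (minimalModels_iff _ (V i)).1 (hV i)
  refine ⟨ρ, h1, fun s hs => ?_⟩
  obtain ⟨h3, h4⟩ := h2 s hs
  refine ⟨h3, ?_⟩
  rw [prod_eq, h4]
  congr 1
  exact Finset.prod_congr rfl fun i _ => by rw [prod_eq]

/-- relations of extensions and continuation -/
theorem cont_of_rel {K : Type} [Field K] [NumberField K] {ι : Type} [Fintype ι] {Z : ι → Ext K}
    {e : ι → ℤ} {m : ℕ} (h : IsRel K Z e m) {E : WeierstrassCurve K} (hE : E.IsElliptic)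
    {U : Set ℂ} (hc : ∀ i, ∃ Λ : ℂ → ℂ, Continues U 1 (E.map (algebraMap K (Z i).F)) Λ) :
    ∃ Λ : ℂ → ℂ, Continues U m E Λ := by
  obtain ⟨V0, hV0⟩ := exists_minimal E hE
  have hVZ : ∀ i, ∃ V : HeightOneSpectrum (𝓞 (Z i).F) → WeierstrassCurve (𝓞 (Z i).F),
      ∀ w, IsMinAt (E.map (algebraMap K (Z i).F)) w (V w) := fun i =>
    exists_minimal _ inferInstance
  choose VZ hVZ using hVZ
  choose Λ hΛ using hc
  obtain ⟨ρ, h1, h2⟩ := L_of_rel h hE V0 ((minimalModels_iff E V0).2 hV0) VZ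
    fun i => (minimalModels_iff _ (VZ i)).2 (hVZ i)
  have hΛ' : ∀ i, MeromorphicOn (Λ i) U ∧ ∀ s : ℂ, 3 / 2 < s.re → Λ i s = LL (VZ i) s := by
    intro i
    have h2 := (continues_iff (U := U) (M := 1) (Λ := Λ i) inferInstance (hVZ i)).1 (hΛ i)
    exact ⟨h2.1, fun s hs => by rw [h2.2 s hs, pow_one]⟩
  refine ⟨ρ * ∏ i, (Λ i) ^ (e i), ?_⟩
  rw [continues_iff hE hV0]
  have hρU : MeromorphicOn ρ U := fun x _ => h1 x trivial
  refine ⟨hρU.mul (MeromorphicOn.prod fun i _ => (hΛ' i).1.zpow _), fun s hs => ?_⟩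
  rw [← prod_eq, (h2 s hs).2, Pi.mul_apply, Finset.prod_apply]
  congr 1
  refine Finset.prod_congr rfl fun i _ => ?_
  rw [Pi.pow_apply, (hΛ' i).2 s hs, prod_eq]

end Pool.Agent.N683.HR
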