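import Pool.Agent.R433.MD.Descent

/-!
# Project HR: two analytic statements
-/

set_option autoImplicit false

namespace Pool.Agent.N683.HR

open NumberField IsDedekindDomain
open Pool.Agent.H341R2.EC (IsMinAt)
open Pool.Agent.R433.MD (LL)

/-- **Task ROOT.** An `m`-th root of a meromorphic function on a convex set, along a segment. -/
def S_ROOT : Prop :=
  ∀ (U : Set ℂ), IsOpen U → Convex ℝ U → (1 : ℂ) ∈ U → (∀ s : ℂ, 3 / 2 < s.re → s ∈ U) →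
    ∀ (Λ L : ℂ → ℂ) (m r : ℕ), m ≠ 0 → MeromorphicOn Λ U →
      DifferentiableOn ℂ L {s : ℂ | 3 / 2 < s.re} → (∀ s : ℂ, 3 / 2 < s.re → L s ≠ 0) →
      (∀ s : ℂ, 3 / 2 < s.re → Λ s = L s ^ m) →
      meromorphicOrderAt Λ 1 = (((m * r : ℕ) : ℤ) : WithTop ℤ) →
      ∃ (W : Set ℂ) (g : ℂ → ℂ), IsOpen W ∧ IsConnected W ∧ W ⊆ U ∧ (1 : ℂ) ∈ W ∧
        (∀ s : ℂ, 3 / 2 < s.re → s ∈ W) ∧ AnalyticOnNhd ℂ g W ∧
        (∀ s : ℂ, 3 / 2 < s.re → g s = L s) ∧ analyticOrderAt g 1 = (r : ℕ∞)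

/-- **Task ANA.** The Euler product of an elliptic curve is holomorphic on `Re s > 3/2`. -/
def S_ANA : Prop :=
  ∀ (K : Type) [Field K] [NumberField K] (E : WeierstrassCurve K), E.IsElliptic →
    ∀ V : HeightOneSpectrum (𝓞 K) → WeierstrassCurve (𝓞 K), (∀ v, IsMinAt E v (V v)) →
      DifferentiableOn ℂ (fun s => LL V s) {s : ℂ | 3 / 2 < s.re}

end Pool.Agent.N683.HR
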