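import Pool.Agent.N683.HR.Asm
import Pool.Agent.N683.HR.Stm2

/-! The rank conjecture and large rank. -/

set_option autoImplicit false

namespace Pool.Agent.N683.HR

open NumberField IsDedekindDomain WeierstrassCurve
open Pool.Agent.R433.MD (Ext LL LL_ne_zero exists_minimal)
open Pool.Agent.H341R2.EC (IsMinAt)
open Pool.Agent.N19.BR.Def
open Pool.Agent.N19.BR (cyclicOver_of rank_of_rel continues_iff minimalModels_iff prod_eq LL_minimal)
open scoped Classical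

/-- The list of fields for the rank conjecture. -/
theorem list_rank (hISO : S_ISO) (K : Type) [Field K] [NumberField K] (E : WeierstrassCurve K)
    (hE : E.IsElliptic) (h0 : E.j ≠ 0) (h1 : E.j ≠ 1728) (L : Type) [Field L] [NumberField L]
    [Algebra K L] [IsGalois K L] (S : Set (HeightOneSpectrum (𝓞 K))) (hS : S.Finite) (n : ℕ)
    (hn : n ≠ 0) (R : ℕ) :
    ∃ (k : ℕ) (Z : Fin k → Ext K) (e : Fin k → ℤ) (m : ℕ), m ≠ 0 ∧
      Pool.Agent.N19.BR.IsRel K Z e m ∧ ∀ i,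
        (R : Cardinal) ≤ Module.rank ℤ (E.map (algebraMap K (Z i).F)).toAffine.Point ∧
        CyclicOver L (Z i) ∧ LocalDegreesDivisible S n (Z i) ∧ AtMostTwoRealPlaces (Z i) := by
  obtain ⟨ι, hι, Z, e, m, hm, hr, hP⟩ := rels hISO (Or.inl rfl) (by norm_num) K L hS hn
    (fun h => absurd h Nat.not_prime_zero) E hE h0 h1 R
  let f : Fin (Fintype.card ι) ≃ ι := (Fintype.equivFin ι).symm
  refine ⟨Fintype.card ι, fun j => Z (f j), fun j => e (f j), m,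
    fun h => hm (by rw [h]), hr.reindex f, fun j => ?_⟩
  obtain ⟨h2, h3, h4, h5⟩ := hP (f j)
  exact ⟨h5.le, cyclicOver_of h2, h3, h4⟩

/-- From the rank formula for a power to the analytic continuation to `1`. -/
theorem analytic_of_power (hROOT : S_ROOT) (hANA : S_ANA) {K : Type} [Field K] [NumberField K]
    {E : WeierstrassCurve K} (hE : E.IsElliptic) {U : Set ℂ} (hU : IsOpen U) (hc : Convex ℝ U)
    (h1 : (1 : ℂ) ∈ U) (hH : ∀ s : ℂ, 3 / 2 < s.re → s ∈ U) {m : ℕ} (hm : m ≠ 0)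
    (h : RankFormula U m E) :
    ∃ (W : Set ℂ) (Λ : ℂ → ℂ) (r : ℕ), IsOpen W ∧ IsConnected W ∧ W ⊆ U ∧ (1 : ℂ) ∈ W ∧
      (∀ s : ℂ, 3 / 2 < s.re → s ∈ W) ∧ AnalyticOnNhd ℂ Λ W ∧
      (∃ V : HeightOneSpectrum (𝓞 K) → WeierstrassCurve (𝓞 K), MinimalModels E V) ∧
      (∀ V : HeightOneSpectrum (𝓞 K) → WeierstrassCurve (𝓞 K), MinimalModels E V →
        ∀ s : ℂ, 3 / 2 < s.re → Λ s = ∏' v, factor V s v) ∧
      Module.rank ℤ E.toAffine.Point = r ∧ analyticOrderAt Λ 1 = (r : ℕ∞) := by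
  obtain ⟨Λ, r, hΛ, hrk, hord⟩ := h
  obtain ⟨V0, hV0⟩ := exists_minimal E hE
  obtain ⟨h2, h3⟩ := (continues_iff (U := U) (M := m) (Λ := Λ) hE hV0).1 hΛ
  obtain ⟨W, g, hW1, hW2, hW3, hW4, hW5, hg1, hg2, hg3⟩ := hROOT U hU hc h1 hH Λ
    (fun s => LL V0 s) m r hm h2 (hANA K E hE V0 hV0) (fun s hs => LL_ne_zero hE hV0 hs) h3 hord
  refine ⟨W, g, r, hW1, hW2, hW3, hW4, hW5, hg1, ⟨V0, (minimalModels_iff E V0).2 hV0⟩, ?_, hrk,
    hg3⟩
  intro V hV s hs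
  rw [hg2 s hs, prod_eq]
  exact LL_minimal hE hV0 ((minimalModels_iff E V).1 hV) s

end Pool.Agent.N683.HR
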