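import Pool.Agent.N683.HR.Stm

/-!
# Project HR: the short Weierstrass form
-/

set_option autoImplicit false

namespace Pool.Agent.N683.HR

/-- **Task ISO.** The points of the short Weierstrass model (`x' = 36 x + 3 b₂`,
`y' = 108 (2 y + a₁ x + a₃)`). -/
def S_ISO : Prop :=
  ∀ (F : Type) [Field F] [CharZero F] [DecidableEq F] (E : WeierstrassCurve F), E.Δ ≠ 0 →
    ∃ φ : (crv (-27 * E.c₄) (-54 * E.c₆)).toAffine.Point →+ E.toAffine.Point,
      Function.Injective φ

end Pool.Agent.N683.HR
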