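import Pool.Agent.N683.HR.Main
import Pool.Agent.N683.HR.Stm3
import Pool.Agent.N19.BR.BSD
import Pool.Agent.N19.BR.Main

/-! Relations with fields over which the rank is large. -/

set_option autoImplicit false

namespace Pool.Agent.N683.HR

open NumberField IsDedekindDomain WeierstrassCurve
open Pool.Agent.R433.MD (Ext map_restrict finrank_restrict IsHyper)
open Pool.Agent.N19.BR (Cyc Cl LocDvd artin core good_real cyc_restrict loc_restrict loc_one
  above above_finite good_loc good_cyc)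
open scoped Classical

/-- `W` has `R` independent points. -/
def Rk {F : Type} [Field F] (R : ℕ) (W : WeierstrassCurve F) : Prop :=
  ∃ P : Fin R → W.toAffine.Point, LinearIndependent ℤ P

theorem Rk.of_inj {F F' : Type} [Field F] [Field F'] {W : WeierstrassCurve F}
    {W' : WeierstrassCurve F'} {R : ℕ} (h : Rk R W)
    (φ : W.toAffine.Point →+ W'.toAffine.Point) (hφ : Function.Injective φ) : Rk R W' := by
  obtain ⟨P, hP⟩ := h
  exact ⟨fun i => φ (P i), hP.map_injOn φ.toIntLinearMap (fun _ _ _ _ h => hφ h)⟩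

theorem Rk.le {F : Type} [Field F] {W : WeierstrassCurve F} {R : ℕ} (h : Rk R W) :
    (R : Cardinal) ≤ Module.rank ℤ W.toAffine.Point := by
  obtain ⟨P, hP⟩ := h
  have h1 := hP.cardinal_le_rank
  simpa using h1

theorem Rk.up {F F' : Type} [Field F] [Field F'] [Algebra F F'] {W : WeierstrassCurve F} {R : ℕ}
    (h : Rk R W) : Rk R (W.map (algebraMap F F')) := by
  have e : W.map (algebraMap F F) = W := W.map_id
  have h' : Rk R (W.map (algebraMap F F)) := by rw [e]; exact h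
  exact h'.of_inj (Affine.Point.map (W' := W) (Algebra.ofId F F'))
    (Affine.Point.map_injective _)

theorem good_of_cl {p : ℕ} (hp2 : p ≠ 2) {G : Type} [Group G] {H : Subgroup G} (h : Cl p H) :
    Good H := by
  rcases h with ⟨-, h⟩ | ⟨hp, C, h1, h2, h3, h4, h5⟩
  · exact Good.of_cyclic h
  · refine ⟨C, h1, h2, h4, fun h hh => ?_⟩
    obtain ⟨k, hk⟩ := h5 h hh
    exact ⟨p ^ k, (hp.odd_of_ne_two hp2).pow, hk⟩

/-- relations with fields with large rank: short Weierstrass form -/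
theorem good_rank {p : ℕ} (hp : p = 0 ∨ p.Prime) (hp2 : p ≠ 2) (K : Type) [Field K]
    [NumberField K] {A B : K} (hA : A ≠ 0) (hB : B ≠ 0) (hD : 4 * A ^ 3 + 27 * B ^ 2 ≠ 0) (R : ℕ) :
    Pool.Agent.N19.BR.Good p K (fun Z => Rk R ((crv A B).map (algebraMap K Z.F)) ∧
      2 ^ R ∣ Module.finrank K Z.F) := by
  obtain ⟨L, _, _, _, _, -, hL⟩ := high_rank K hA hB hD R K
  have key : ∀ F : IntermediateField K L, Cl p F.fixingSubgroup →
      Rk R ((crv A B).map (algebraMap K F)) ∧ 2 ^ R ∣ Module.finrank K F := by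
    intro F hF
    have h1 := hL F.fixingSubgroup (good_of_cl hp2 hF)
    rw [IsGalois.fixedField_fixingSubgroup] at h1
    obtain ⟨h2, h3⟩ := h1
    refine ⟨?_, h3⟩
    exact @h2 (fun a b => Classical.propDecidable (a = b))
  refine (artin hp K L).mono ?_
  rintro Z ⟨F, hF, rfl⟩
  exact key F hF

/-- relations with fields with large rank -/
theorem good_rankE (hISO : S_ISO) {p : ℕ} (hp : p = 0 ∨ p.Prime) (hp2 : p ≠ 2) (K : Type)
    [Field K] [NumberField K] (E : WeierstrassCurve K) (hE : E.IsElliptic) (h0 : E.j ≠ 0)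
    (h1 : E.j ≠ 1728) (R : ℕ) :
    Pool.Agent.N19.BR.Good p K (fun Z => Rk R (E.map (algebraMap K Z.F)) ∧
      2 ^ R ∣ Module.finrank K Z.F) := by
  have hΔ : E.Δ ≠ 0 := by
    rw [← E.coe_Δ']
    exact E.Δ'.ne_zero
  have hj : E.j * E.Δ = E.c₄ ^ 3 := by
    rw [WeierstrassCurve.j, ← E.coe_Δ', mul_comm, ← mul_assoc, Units.mul_inv, one_mul]
  have hrel := E.c_relation
  have hc4 : E.c₄ ≠ 0 := by
    intro h
    rw [h] at hj
    apply h0
    have h2 : E.j * E.Δ = 0 := by rw [hj]; ring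
    exact (mul_eq_zero.mp h2).resolve_right hΔ
  have hc6 : E.c₆ ≠ 0 := by
    intro h
    apply h1
    have h2 : (E.j - 1728) * E.Δ = 0 := by
      rw [h] at hrel
      linear_combination hj - hrel
    exact sub_eq_zero.mp ((mul_eq_zero.mp h2).resolve_right hΔ)
  have hA : -27 * E.c₄ ≠ 0 := mul_ne_zero (by norm_num) hc4
  have hB : -54 * E.c₆ ≠ 0 := mul_ne_zero (by norm_num) hc6
  have hD : 4 * (-27 * E.c₄) ^ 3 + 27 * (-54 * E.c₆) ^ 2 ≠ 0 := by
    have h2 : 4 * (-27 * E.c₄) ^ 3 + 27 * (-54 * E.c₆) ^ 2 = -136048896 * E.Δ := by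
      linear_combination -78732 * (-hrel)
    rw [h2]
    exact mul_ne_zero (by norm_num) hΔ
  refine (good_rank hp hp2 K hA hB hD R).mono ?_
  rintro Z ⟨h2, h3⟩
  refine ⟨?_, h3⟩
  have hΔ' : (E.map (algebraMap K Z.F)).Δ ≠ 0 := by
    rw [WeierstrassCurve.map_Δ]
    exact (map_ne_zero _).mpr hΔ
  obtain ⟨φ, hφ⟩ := hISO Z.F (E.map (algebraMap K Z.F)) hΔ'
  have e : (crv (-27 * E.c₄) (-54 * E.c₆)).map (algebraMap K Z.F) =
      crv (-27 * (E.map (algebraMap K Z.F)).c₄) (-54 * (E.map (algebraMap K Z.F)).c₆) := by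
    rw [WeierstrassCurve.map_c₄, WeierstrassCurve.map_c₆]
    have e27 : algebraMap K Z.F 27 = 27 := map_ofNat _ _
    have e54 : algebraMap K Z.F 54 = 54 := map_ofNat _ _
    simp [crv, WeierstrassCurve.map, e27, e54]
  rw [e] at h2
  exact h2.of_inj φ hφ

/-- **The relations for the rank conjecture.** -/
theorem rels (hISO : S_ISO) {p : ℕ} (hp : p = 0 ∨ p.Prime) (hp2 : p ≠ 2) (K : Type) [Field K]
    [NumberField K] (L : Type) [Field L] [NumberField L] [Algebra K L] [IsGalois K L]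
    {S : Set (HeightOneSpectrum (𝓞 K))} (hS : S.Finite) {n : ℕ} (hn : n ≠ 0)
    (hnp : p.Prime → n.Coprime p) (E : WeierstrassCurve K) (hE : E.IsElliptic) (h0 : E.j ≠ 0)
    (h1 : E.j ≠ 1728) (R : ℕ) :
    Pool.Agent.N19.BR.Good p K (fun Z => Cyc p L Z ∧ LocDvd K S n Z.F ∧
      Nat.card (Z.F →+* ℝ) ≤ 2 ∧ Rk R (E.map (algebraMap K Z.F))) := by
  have h2 : Pool.Agent.N19.BR.Good p K (fun Z => Cyc p L Z ∧ LocDvd K S n Z.F ∧
      Rk R (E.map (algebraMap K Z.F))) := by
    refine (core hp K L hS hn hnp).comp hp (fun Z Y =>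
      Rk R ((E.map (algebraMap K Z.F)).map (algebraMap Z.F Y.F))) ?_ ?_
    · intro Z _
      refine (good_rankE hISO hp hp2 Z.F (E.map (algebraMap K Z.F)) inferInstance ?_ ?_ R).mono
        fun Y h => h.1
      · rw [WeierstrassCurve.map_j]
        exact (map_ne_zero _).mpr h0
      · rw [WeierstrassCurve.map_j]
        intro h
        apply h1
        apply (algebraMap K Z.F).injective
        rw [h, map_ofNat]
    · rintro Z Y ⟨h3, h4, -⟩ h5
      have h6 := loc_restrict Z Y h4 (loc_one _ Y.F)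
      rw [mul_one] at h6
      refine ⟨cyc_restrict Z Y h3, h6, ?_⟩
      rw [map_restrict]
      exact h5
  refine h2.comp hp (fun Z Y => Nat.card (Y.F →+* ℝ) ≤ 2) (fun Z _ => good_real hp hp2 Z.F) ?_
  rintro Z Y ⟨h3, h4, h5⟩ h6
  have h7 := loc_restrict Z Y h4 (loc_one _ Y.F)
  rw [mul_one] at h7
  refine ⟨cyc_restrict Z Y h3, h7, h6, ?_⟩
  rw [map_restrict]
  exact Rk.up (F' := Y.F) h5

end Pool.Agent.N683.HR
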