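import Pool.Agent.N683.HR.Stm

/-! Group theory: signs and permutations of three roots. -/

set_option autoImplicit false

namespace Pool.Agent.N683.HR

section
variable {G G' : Type} [Group G] [Group G']

theorem Good.map {H : Subgroup G} (h : Good H) (φ : G →* G') : Good (H.map φ) := by
  obtain ⟨C, hCH, hC, hn, hk⟩ := h
  refine ⟨C.map φ, Subgroup.map_mono hCH, ?_, ?_, ?_⟩
  · haveI := hC
    exact isCyclic_of_surjective (φ.subgroupMap C) (φ.subgroupMap_surjective C)
  · rintro _ ⟨h, hh, rfl⟩ _ ⟨c, hc, rfl⟩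
    exact ⟨h * c * h⁻¹, hn h hh c hc, by simp⟩
  · rintro _ ⟨h, hh, rfl⟩
    obtain ⟨k, hko, hkC⟩ := hk h hh
    exact ⟨k, hko, h ^ k, hkC, by simp⟩

theorem Good.of_cyclic {H : Subgroup G} (h : IsCyclic H) : Good H :=
  ⟨H, le_rfl, h, fun h hh c hc => H.mul_mem (H.mul_mem hh hc) (H.inv_mem hh),
    fun h hh => ⟨1, odd_one, by simpa using hh⟩⟩

/-- Signs: if three sign characters have product `1`, one of them is trivial on a good group. -/
theorem Good.sign {H : Subgroup G} (h : Good H) (e : Fin 3 → G → ℤˣ)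
    (hm : ∀ i, ∀ a ∈ H, ∀ b ∈ H, e i (a * b) = e i a * e i b)
    (hp : ∀ a ∈ H, e 0 a * e 1 a * e 2 a = 1) : ∃ i, ∀ a ∈ H, e i a = 1 := by
  obtain ⟨C, hCH, hC, -, hk⟩ := h
  obtain ⟨⟨c, hcC⟩, hc⟩ := hC.exists_generator
  have hcH := hCH hcC
  have hone : ∀ i, e i 1 = 1 := by
    intro i
    have h1 := hm i 1 H.one_mem 1 H.one_mem
    rw [one_mul] at h1
    exact mul_eq_left.mp h1.symm
  have hpow : ∀ i, ∀ a ∈ H, ∀ n : ℕ, e i (a ^ n) = e i a ^ n := by
    intro i a ha n
    induction n with
    | zero => rw [pow_zero, pow_zero, hone]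
    | succ n ih => rw [pow_succ, hm i _ (H.pow_mem ha n) _ ha, ih, pow_succ]
  have hinv : ∀ i, ∀ a ∈ H, e i a⁻¹ = e i a := by
    intro i a ha
    have h1 := hm i a ha a⁻¹ (H.inv_mem ha)
    rw [mul_inv_cancel, hone] at h1
    have h2 : e i a * e i a = 1 := Int.units_mul_self _
    rw [← h2] at h1
    exact (mul_left_cancel h1).symm
  obtain ⟨i, hi⟩ : ∃ i, e i c = 1 := by
    by_contra hcon
    push Not at hcon
    have h0 := (Int.units_eq_one_or (e 0 c)).resolve_left (hcon 0)
    have h1 := (Int.units_eq_one_or (e 1 c)).resolve_left (hcon 1)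
    have h2 := (Int.units_eq_one_or (e 2 c)).resolve_left (hcon 2)
    have h3 := hp c hcH
    rw [h0, h1, h2] at h3
    exact absurd h3 (by decide)
  have hC1 : ∀ a ∈ C, e i a = 1 := by
    intro a ha
    obtain ⟨n, hn⟩ := hc ⟨a, ha⟩
    have hn' : c ^ n = a := congrArg Subtype.val hn
    obtain ⟨m, rfl | rfl⟩ := n.eq_nat_or_neg
    · rw [← hn', zpow_natCast, hpow i c hcH, hi, one_pow]
    · rw [← hn', zpow_neg, zpow_natCast, hinv i _ (H.pow_mem hcH m), hpow i c hcH, hi, one_pow]
  refine ⟨i, fun a ha => ?_⟩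
  obtain ⟨k, hko, hkC⟩ := hk a ha
  have h1 := hC1 _ hkC
  rw [hpow i a ha] at h1
  rcases Int.units_eq_one_or (e i a) with h2 | h2
  · exact h2
  · rw [h2, hko.neg_one_pow] at h1
    exact absurd h1 (by decide)

end

section roots
variable {K Ω : Type} [Field K] [Field Ω] [CharZero Ω] [Algebra K Ω]

/-- A good group of automorphisms which permutes three elements fixes one of them, or it fixes the
product of the differences. -/
theorem Good.three {H : Subgroup (Ω ≃ₐ[K] Ω)} (h : Good H) (e : Fin 3 → Ω)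
    (he : Function.Injective e) (hp : ∀ a ∈ H, ∀ i, ∃ j, a (e i) = e j) :
    (∃ i, ∀ a ∈ H, a (e i) = e i) ∨
      ∀ a ∈ H, a ((e 0 - e 1) * (e 0 - e 2) * (e 1 - e 2)) =
        (e 0 - e 1) * (e 0 - e 2) * (e 1 - e 2) := by
  obtain ⟨C, hCH, hC, hnor, hk⟩ := h
  obtain ⟨⟨c, hcC⟩, hc⟩ := hC.exists_generator
  have hcH := hCH hcC
  have h01 : e 0 ≠ e 1 := fun h => absurd (he h) (by decide)
  have h02 : e 0 ≠ e 2 := fun h => absurd (he h) (by decide)
  have h12 : e 1 ≠ e 2 := fun h => absurd (he h) (by decide)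
  set D := (e 0 - e 1) * (e 0 - e 2) * (e 1 - e 2) with hD
  have hD0 : D ≠ 0 := mul_ne_zero (mul_ne_zero (sub_ne_zero.mpr h01) (sub_ne_zero.mpr h02))
    (sub_ne_zero.mpr h12)
  -- every element of `H` maps `D` to `D`, or it fixes exactly one `e i` and maps `D` to `-D`
  have key : ∀ a ∈ H, a D = D ∨ (a D = -D ∧ ∃ i, a (e i) = e i ∧ ∀ j, a (e j) = e j → j = i) := by
    intro a ha
    obtain ⟨j0, h0⟩ := hp a ha 0
    obtain ⟨j1, h1⟩ := hp a ha 1
    obtain ⟨j2, h2⟩ := hp a ha 2
    have n01 : j0 ≠ j1 := fun h => h01 (a.injective (by rw [h0, h1, h]))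
    have n02 : j0 ≠ j2 := fun h => h02 (a.injective (by rw [h0, h2, h]))
    have n12 : j1 ≠ j2 := fun h => h12 (a.injective (by rw [h1, h2, h]))
    have hDa : a D = (e j0 - e j1) * (e j0 - e j2) * (e j1 - e j2) := by
      rw [hD, map_mul, map_mul, map_sub, map_sub, map_sub, h0, h1, h2]
    fin_cases j0 <;> fin_cases j1 <;> fin_cases j2 <;>
      first
        | (exact absurd rfl n01)
        | (exact absurd rfl n02)
        | (exact absurd rfl n12)
        | (left
           simp only [Fin.zero_eta, Fin.mk_one, Fin.reduceFinMk] at hDa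
           linear_combination hDa - hD)
        | (right
           simp only [Fin.zero_eta, Fin.mk_one, Fin.reduceFinMk] at hDa h0 h1 h2
           refine ⟨by linear_combination hDa + hD, ?_⟩
           first
            | (refine ⟨0, h0, fun j hj => ?_⟩
               fin_cases j
               · rfl
               · exact absurd (he (h1.symm.trans hj)) (by decide)
               · exact absurd (he (h2.symm.trans hj)) (by decide))
            | (refine ⟨1, h1, fun j hj => ?_⟩
               fin_cases j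
               · exact absurd (he (h0.symm.trans hj)) (by decide)
               · rfl
               · exact absurd (he (h2.symm.trans hj)) (by decide))
            | (refine ⟨2, h2, fun j hj => ?_⟩
               fin_cases j
               · exact absurd (he (h0.symm.trans hj)) (by decide)
               · exact absurd (he (h1.symm.trans hj)) (by decide)
               · rfl))
  -- elements of `C` are powers of `c`
  have hCfix : ∀ x : Ω, c x = x → ∀ a ∈ C, a x = x := by
    intro x hx a ha
    obtain ⟨n, hn⟩ := hc ⟨a, ha⟩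
    have hn' : c ^ n = a := congrArg Subtype.val hn
    rw [← hn']
    have hst : c ∈ MulAction.stabilizer (Ω ≃ₐ[K] Ω) x := hx
    exact (Subgroup.zpow_mem _ hst n : _)
  rcases key c hcH with hcD | ⟨hcD, i, hi, huni⟩
  · right
    intro a ha
    obtain ⟨k, hko, hkC⟩ := hk a ha
    have h1 := hCfix D hcD _ hkC
    rcases key a ha with h2 | ⟨h2, -⟩
    · exact h2
    · exfalso
      have h3 : ∀ n : ℕ, (a ^ n) D = (-1) ^ n * D := by
        intro n
        induction n with
        | zero => simp
        | succ n ih =>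
          rw [pow_succ, AlgEquiv.mul_apply, h2, map_neg, ih, pow_succ]
          ring
      rw [h3, hko.neg_one_pow] at h1
      apply hD0
      have h4 : (2 : Ω) * D = 0 := by linear_combination -h1
      exact (mul_eq_zero.mp h4).resolve_left two_ne_zero
  · left
    refine ⟨i, fun a ha => ?_⟩
    obtain ⟨j, hj⟩ := hp a ha i
    have h1 : a⁻¹ * c * a⁻¹⁻¹ ∈ C := hnor a⁻¹ (H.inv_mem ha) c hcC
    have h2 := hCfix (e i) hi _ h1
    have h3 : c (e j) = e j := by
      rw [inv_inv] at h2
      have h4 : a ((a⁻¹ * c * a) (e i)) = a (e i) := congrArg a h2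
      rw [AlgEquiv.mul_apply, AlgEquiv.mul_apply, hj] at h4
      have h5 : a (a⁻¹ (c (e j))) = c (e j) := by
        rw [← AlgEquiv.mul_apply, mul_inv_cancel, AlgEquiv.one_apply]
      rw [h5] at h4
      exact h4
    rw [hj, huni j h3]

end roots

end Pool.Agent.N683.HR
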