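import Pool.Agent.N683.HR.Grp

/-! Independence, quadratic elements and images of good groups. -/

set_option autoImplicit false

namespace Pool.Agent.N683.HR

theorem Good.of_ker {G G0 G1 : Type} [Group G] [Group G0] [Group G1] (U : Subgroup G)
    (φ1 : G →* G1) (φ0 : G →* G0) (hker : φ1.ker ≤ φ0.ker) (h : Good (U.map φ1)) :
    Good (U.map φ0) := by
  obtain ⟨C, hCH, hC, hn, hk⟩ := h
  obtain ⟨⟨g, hg⟩, hgen⟩ := hC.exists_generator
  obtain ⟨u, huU, rfl⟩ := hCH hg
  have key : ∀ v, φ1 v ∈ C → φ0 v ∈ Subgroup.zpowers (φ0 u) := by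
    intro v hv
    obtain ⟨m, hm⟩ := hgen ⟨φ1 v, hv⟩
    have hm' : φ1 u ^ m = φ1 v := congrArg Subtype.val hm
    have h1 : v * (u ^ m)⁻¹ ∈ φ1.ker := by
      rw [MonoidHom.mem_ker, map_mul, map_inv, map_zpow, hm', mul_inv_cancel]
    have h2 := MonoidHom.mem_ker.mp (hker h1)
    rw [map_mul, map_inv, map_zpow] at h2
    exact ⟨m, (mul_inv_eq_one.mp h2).symm⟩
  refine ⟨Subgroup.zpowers (φ0 u), ?_, inferInstance, ?_, ?_⟩
  · rw [Subgroup.zpowers_le]
    exact ⟨u, huU, rfl⟩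
  · rintro _ ⟨v, hv, rfl⟩ c hc
    obtain ⟨m, rfl⟩ := hc
    change φ0 v * φ0 u ^ m * (φ0 v)⁻¹ ∈ _
    rw [← map_zpow, ← map_inv, ← map_mul, ← map_mul]
    apply key
    rw [map_mul, map_mul, map_inv]
    refine hn _ ⟨v, hv, rfl⟩ _ ?_
    rw [map_zpow]
    exact C.zpow_mem hg m
  · rintro _ ⟨v, hv, rfl⟩
    obtain ⟨k, hko, hkC⟩ := hk _ ⟨v, hv, rfl⟩
    refine ⟨k, hko, ?_⟩
    rw [← map_pow]
    apply key
    rw [map_pow]
    exact hkC

theorem ind {M : Type} [AddCommGroup M] (φ : M →+ M) {R : ℕ} (P : Fin R → M) (Q : M)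
    (hP : LinearIndependent ℤ P) (hφ : ∀ i, φ (P i) = P i) (hQ : φ Q = -Q)
    (hnt : ∀ n : ℕ, 0 < n → n • Q ≠ 0) :
    LinearIndependent ℤ (Fin.cons Q P : Fin (R + 1) → M) := by
  refine LinearIndependent.finCons' Q P hP ?_
  rintro c y hy hcy
  have hy' : φ y = y := by
    refine Submodule.span_induction (p := fun y _ => φ y = y) ?_ ?_ ?_ ?_ hy
    · rintro _ ⟨i, rfl⟩
      exact hφ i
    · exact map_zero φ
    · intro a b _ _ ha hb
      rw [map_add, ha, hb]
    · intro n a _ ha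
      rw [map_zsmul, ha]

  have h1 := congrArg φ hcy
  rw [map_add, map_zsmul, hQ, hy', map_zero, zsmul_neg] at h1
  have h2 : (2 * c) • Q = 0 := by
    have h3 : (c • Q + y) - (-(c • Q) + y) = 0 := by rw [hcy, h1, sub_zero]
    rw [two_mul, add_zsmul]
    rw [← h3]
    abel
  by_contra hc
  have h4 : (2 * c).natAbs • Q = 0 := by
    rcases Int.natAbs_eq (2 * c) with h5 | h5
    · rw [h5, natCast_zsmul] at h2
      exact h2
    · rw [h5, neg_zsmul, natCast_zsmul, neg_eq_zero] at h2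
      exact h2
  refine hnt _ ?_ h4
  rw [Int.natAbs_pos]
  exact mul_ne_zero two_ne_zero hc

section quad
variable {K Ω : Type} [Field K] [Field Ω] [Algebra K Ω]

open IntermediateField Polynomial in
theorem two_dvd {F₀ F : IntermediateField K Ω} (hF : F₀ ≤ F) [FiniteDimensional K F]
    {r : Ω} (hr : r ∈ F) (hr0 : r ∉ F₀) (hr2 : r ^ 2 ∈ F₀) :
    Module.finrank K F₀ * 2 ∣ Module.finrank K F := by
  rw [← IntermediateField.finrank_bot_mul_relfinrank hF]
  refine mul_dvd_mul_left _ ?_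
  rw [IntermediateField.relfinrank_eq_finrank_of_le hF]
  have hfd : FiniteDimensional F₀ (extendScalars hF) := by
    haveI : FiniteDimensional K (extendScalars hF) := ‹FiniteDimensional K F›
    exact FiniteDimensional.right K F₀ _
  have hle : adjoin F₀ {r} ≤ extendScalars hF := by
    rw [adjoin_le_iff, Set.singleton_subset_iff]
    exact hr
  have hint : IsIntegral F₀ r := by
    refine ⟨X ^ 2 - C ⟨r ^ 2, hr2⟩, ?_, ?_⟩
    · exact monic_X_pow_sub_C _ two_ne_zero
    · simp only [eval₂_sub, eval₂_pow, eval₂_X, eval₂_C]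
      change r ^ 2 - r ^ 2 = 0
      ring
  have h2 : Module.finrank F₀ (adjoin F₀ {r}) = 2 := by
    rw [adjoin.finrank hint]
    have h3 : minpoly F₀ r ∣ X ^ 2 - C ⟨r ^ 2, hr2⟩ := by
      refine minpoly.dvd F₀ r ?_
      simp only [map_sub, map_pow, aeval_X, aeval_C]
      change r ^ 2 - r ^ 2 = 0
      ring
    have h4 : (minpoly F₀ r).natDegree ≤ 2 := by
      refine (natDegree_le_of_dvd h3 (monic_X_pow_sub_C _ two_ne_zero).ne_zero).trans ?_
      rw [natDegree_X_pow_sub_C]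
    have h5 := minpoly.natDegree_pos hint
    have h6 : (minpoly F₀ r).natDegree ≠ 1 := by
      intro h7
      rw [minpoly.natDegree_eq_one_iff] at h7
      obtain ⟨y, hy⟩ := h7
      exact hr0 (hy ▸ y.2)
    omega
  rw [← h2]
  exact finrank_dvd_of_le_right hle

end quad

end Pool.Agent.N683.HR
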