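import Pool.Agent.N683.HR.Rk2
import Pool.Agent.N683.HR.SQ
import Pool.Agent.N683.HR.TOR

/-! Large rank over the fixed fields of all good groups. -/

set_option autoImplicit false

namespace Pool.Agent.N683.HR

open IntermediateField WeierstrassCurve

theorem pr_all (K Ω : Type) [Field K] [NumberField K] [Field Ω] [Algebra K Ω] [DecidableEq Ω]
    [Algebra.IsAlgebraic K Ω] [IsAlgClosed Ω] {A B : K} (hA : A ≠ 0) (hB : B ≠ 0)
    (hD : 4 * A ^ 3 + 27 * B ^ 2 ≠ 0) (R : ℕ) : PR Ω A B R := by
  induction R with
  | zero => exact pr_zero A B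
  | succ R ih => exact pr_succ sq tor hA hB hD ih

/-- Large rank over the fixed fields of all good groups. -/
theorem high_rank (K : Type) [Field K] [NumberField K] {A B : K} (hA : A ≠ 0) (hB : B ≠ 0)
    (hD : 4 * A ^ 3 + 27 * B ^ 2 ≠ 0) (R : ℕ) (M : Type) [Field M] [NumberField M] [Algebra K M] :
    ∃ (L : Type) (_ : Field L) (_ : NumberField L) (_ : Algebra K L) (_ : IsGalois K L),
      Nonempty (M →ₐ[K] L) ∧ ∀ H : Subgroup Gal(L/K), Good H →
        (∀ [DecidableEq ↥(fixedField H)],
          ∃ P : Fin R → (((crv A B).baseChange ↥(fixedField H)).toAffine).Point,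
            LinearIndependent ℤ P) ∧ 2 ^ R ∣ Module.finrank K ↥(fixedField H) := by
  classical
  haveI : FiniteDimensional K M := Module.Finite.of_restrictScalars_finite ℚ K M
  haveI : IsAlgClosure K (AlgebraicClosure K) := inferInstance
  have fM : M →ₐ[K] AlgebraicClosure K := IsAlgClosed.lift
  obtain ⟨L, hN, hML, hfd, hL⟩ := pr_all K (AlgebraicClosure K) hA hB hD R fM.fieldRange
    (Module.Finite.equiv (AlgEquiv.ofInjectiveField fM).toLinearEquiv)
  haveI : NumberField L := NumberField.of_module_finite K L
  haveI : IsGalois K L := ⟨⟩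
  refine ⟨L, inferInstance, inferInstance, inferInstance, inferInstance,
    ⟨(IntermediateField.inclusion hML).comp fM.rangeRestrict⟩, ?_⟩
  intro H hH
  set U : Subgroup Gal(AlgebraicClosure K/K) := H.comap (AlgEquiv.restrictNormalHom L) with hU
  have hmap : U.map (AlgEquiv.restrictNormalHom L) = H :=
    Subgroup.map_comap_eq_self_of_surjective (AlgEquiv.restrictNormalHom_surjective _) H
  have hF : L ⊓ fixedField U = lift (fixedField H) := by
    rw [inf_comm, InfiniteGalois.restrict_fixedField, hmap]
  obtain ⟨⟨P, hP, hPr⟩, hdeg⟩ := hL U (by rw [hmap]; exact hH)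
  rw [hF] at hPr hdeg
  let e : ↥(fixedField H) ≃ₐ[K] lift (fixedField H) := liftAlgEquiv (fixedField H)
  refine ⟨?_, ?_⟩
  · intro _
    choose P' hP' using hPr
    refine ⟨fun i => Affine.Point.map (W' := crv A B) (e.symm : lift (fixedField H) →ₐ[K] _)
      (P' i), ?_⟩
    refine LinearIndependent.of_comp ((Affine.Point.map (W' := crv A B)
      (L.val.comp (fixedField H).val)).toIntLinearMap) ?_
    have hcomp : (L.val.comp (fixedField H).val).comp
        (e.symm : lift (fixedField H) →ₐ[K] ↥(fixedField H)) = (lift (fixedField H)).val := by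
      ext z
      have h1 := congrArg (fun w : lift (fixedField H) => (w : AlgebraicClosure K))
        (e.apply_symm_apply z)
      exact h1
    have h2 : (⇑((Affine.Point.map (W' := crv A B)
        (L.val.comp (fixedField H).val)).toIntLinearMap) ∘ fun i =>
        Affine.Point.map (W' := crv A B) (e.symm : lift (fixedField H) →ₐ[K] _) (P' i)) = P := by
      funext i
      change Affine.Point.map (W' := crv A B) (L.val.comp (fixedField H).val)
        (Affine.Point.map (W' := crv A B) (e.symm : lift (fixedField H) →ₐ[K] _) (P' i)) = P i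
      rw [Affine.Point.map_map, hcomp, hP']
    rw [h2]
    exact hP
  · rw [e.toLinearEquiv.finrank_eq]
    exact hdeg

end Pool.Agent.N683.HR
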