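import Pool.Agent.N683.HR.Stm

/-! Moebius maps that permute the roots of a cubic. -/

set_option autoImplicit false

namespace Pool.Agent.N683.HR

theorem moebius {F : Type} [Field F] [CharZero F] {A B : F} (hA : A ≠ 0) (hB : B ≠ 0)
    (hD : 4 * A ^ 3 + 27 * B ^ 2 ≠ 0)
    (h : (∃ e : F, cub A B e = 0) ∨ ∃ D : F, D ^ 2 = -4 * A ^ 3 - 27 * B ^ 2) :
    ∃ α β γ δ κ : F, γ ≠ 0 ∧ κ ≠ 0 ∧ α * δ - β * γ ≠ 0 ∧
      ∀ x : F, (α * x + β) ^ 3 + A * (α * x + β) * (γ * x + δ) ^ 2 + B * (γ * x + δ) ^ 3 =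
        κ * cub A B x := by
  rcases h with ⟨e, he⟩ | ⟨D, hDD⟩
  · -- a root
    rw [cub] at he
    have he0 : e ≠ 0 := by
      rintro rfl
      apply hB
      linear_combination he
    have hb0 : 3 * e ^ 2 + A ≠ 0 := by
      intro h0
      apply hD
      have hA' : A = -3 * e ^ 2 := by linear_combination h0
      subst hA'
      have hB' : B = 2 * e ^ 3 := by linear_combination he
      subst hB'
      ring
    set a := 3 * e with ha
    set b := 3 * e ^ 2 + A with hb
    refine ⟨e * a - b, -e ^ 2 * a + 2 * e * b, a, b - a * e, -b ^ 3, ?_, ?_, ?_, ?_⟩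
    · exact mul_ne_zero (by norm_num) he0
    · exact neg_ne_zero.mpr (pow_ne_zero _ hb0)
    · have e1 : (e * a - b) * (b - a * e) - (-e ^ 2 * a + 2 * e * b) * a = -b ^ 2 := by ring
      rw [e1]
      exact neg_ne_zero.mpr (pow_ne_zero _ hb0)
    · intro x
      have hB' : B = -e ^ 3 - A * e := by linear_combination he
      rw [cub, hB', ha, hb]
      ring
  · have hD0 : D ≠ 0 := by
      rintro rfl
      apply hD
      linear_combination hDD
    refine ⟨D - 9 * B, 2 * A ^ 2, 6 * A, D + 9 * B, -8 * D ^ 3, ?_, ?_, ?_, ?_⟩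
    · exact mul_ne_zero (by norm_num) hA
    · exact mul_ne_zero (by norm_num) (pow_ne_zero _ hD0)
    · have e1 : (D - 9 * B) * (D + 9 * B) - 2 * A ^ 2 * (6 * A) = 4 * D ^ 2 := by
        linear_combination (-3) * hDD
      rw [e1]
      exact mul_ne_zero (by norm_num) (pow_ne_zero _ hD0)
    · intro x
      rw [cub]
      linear_combination (9 * (x ^ 3 + A * x + B) * D +
        (-27 * B * x ^ 3 + 18 * A ^ 2 * x ^ 2 + 27 * A * B * x + 2 * A ^ 3 + 27 * B ^ 2)) * hDD

end Pool.Agent.N683.HR
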