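import Pool.Agent.N683.HR.Rk

/-! The induction step. -/

set_option autoImplicit false

namespace Pool.Agent.N683.HR

open IntermediateField WeierstrassCurve

section
variable {K Ω : Type} [Field K] [NumberField K] [Field Ω] [Algebra K Ω] [DecidableEq Ω]

/-- The statement of the induction. -/
def PR (Ω : Type) [Field Ω] [Algebra K Ω] [DecidableEq Ω] (A B : K) (R : ℕ) : Prop :=
  ∀ M : IntermediateField K Ω, FiniteDimensional K M →
    ∃ (L : IntermediateField K Ω) (_ : Normal K L), M ≤ L ∧ FiniteDimensional K L ∧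
      ∀ U : Subgroup Gal(Ω/K), Good (U.map (AlgEquiv.restrictNormalHom L)) →
        HasPts A B (L ⊓ fixedField U) R ∧ 2 ^ R ∣ Module.finrank K ↥(L ⊓ fixedField U)

theorem fd_of_le {F F' : IntermediateField K Ω} (h : F ≤ F') [FiniteDimensional K F'] :
    FiniteDimensional K F :=
  FiniteDimensional.of_injective (IntermediateField.inclusion h).toLinearMap
    (IntermediateField.inclusion h).injective

theorem finite_le (L₀ : IntermediateField K Ω) [FiniteDimensional K L₀] :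
    {F : IntermediateField K Ω | F ≤ L₀}.Finite := by
  haveI : Finite (IntermediateField K L₀) :=
    Field.finite_intermediateField_of_exists_primitive_element K L₀
      (Field.exists_primitive_element K L₀)
  refine (Set.finite_range (fun E : IntermediateField K L₀ => lift E)).subset ?_
  intro F hF
  exact ⟨restrict hF, lift_restrict hF⟩

theorem pr_zero [Algebra.IsAlgebraic K Ω] [IsAlgClosed Ω] (A B : K) : PR Ω A B 0 := by
  intro M hM
  haveI : IsAlgClosure K Ω := ⟨inferInstance, inferInstance⟩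
  haveI : Normal K Ω := IsAlgClosure.normal K Ω
  refine ⟨normalClosure K M Ω, inferInstance, le_normalClosure M, inferInstance, ?_⟩
  intro U hU
  refine ⟨⟨Fin.elim0, linearIndependent_empty_type, fun i => i.elim0⟩, ?_⟩
  rw [pow_zero]
  exact one_dvd _

theorem sign_fixed [CharZero Ω] (L₁ : IntermediateField K Ω) [Normal K L₁]
    (U : Subgroup Gal(Ω/K)) (hU : Good (U.map (AlgEquiv.restrictNormalHom L₁))) (r : Fin 3 → Ω)
    (hr : ∀ i, r i ∈ L₁) (h2 : ∀ i, ∀ u ∈ U, (u (r i)) ^ 2 = r i ^ 2)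
    (hp : ∀ u ∈ U, u (r 0 * r 1 * r 2) = r 0 * r 1 * r 2) (h0 : r 0 * r 1 * r 2 ≠ 0) :
    ∃ i, ∀ u ∈ U, u (r i) = r i := by
  classical
  have hr0 : ∀ i, r i ≠ 0 := by
    intro i
    fin_cases i
    · exact left_ne_zero_of_mul (left_ne_zero_of_mul h0)
    · exact right_ne_zero_of_mul (left_ne_zero_of_mul h0)
    · exact right_ne_zero_of_mul h0
  have hneg : ∀ i, -r i ≠ r i := by
    intro i h
    apply hr0 i
    have h3 : (2 : Ω) * r i = 0 := by linear_combination -h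
    exact (mul_eq_zero.mp h3).resolve_left two_ne_zero
  set e : Fin 3 → Gal(L₁/K) → ℤˣ := fun i a => if a ⟨r i, hr i⟩ = ⟨r i, hr i⟩ then 1 else -1 with he
  have hval : ∀ i, ∀ u ∈ U, u (r i) = ((e i (AlgEquiv.restrictNormalHom L₁ u) : ℤˣ) : ℤ) * r i := by
    intro i u hu
    simp only [he]
    split_ifs with h
    · have h3 := congrArg (fun w : L₁ => (w : Ω)) h
      simp only [AlgEquiv.restrictNormalHom_apply] at h3
      simpa using h3
    · rcases sq_eq_sq_iff_eq_or_eq_neg.mp (h2 i u hu) with h3 | h3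
      · exfalso
        apply h
        apply Subtype.ext
        rw [AlgEquiv.restrictNormalHom_apply]
        exact h3
      · simpa using h3
  have hone : ∀ i, ∀ (s t : ℤˣ), (((s : ℤ)) : Ω) * r i = ((t : ℤ) : Ω) * r i → s = t := by
    intro i s t hst
    have h3 := mul_right_cancel₀ (hr0 i) hst
    exact Units.ext (by exact_mod_cast h3)
  obtain ⟨i, hi⟩ := hU.sign e (by
    rintro i _ ⟨u, hu, rfl⟩ _ ⟨v, hv, rfl⟩
    rw [← map_mul]
    apply hone i
    rw [← hval i _ (U.mul_mem hu hv), AlgEquiv.mul_apply, hval i v hv, map_mul, map_intCast,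
      hval i u hu]
    push_cast
    ring) (by
    rintro _ ⟨u, hu, rfl⟩
    have h3 := hp u hu
    rw [map_mul, map_mul, hval 0 u hu, hval 1 u hu, hval 2 u hu] at h3
    apply hone 0
    have h4 : ((((e 0 (AlgEquiv.restrictNormalHom L₁ u) * e 1 (AlgEquiv.restrictNormalHom L₁ u) *
        e 2 (AlgEquiv.restrictNormalHom L₁ u) : ℤˣ) : ℤ)) : Ω) * (r 0 * r 1 * r 2) =
        (((1 : ℤˣ) : ℤ) : Ω) * (r 0 * r 1 * r 2) := by
      push_cast
      linear_combination h3
    rw [mul_right_cancel₀ h0 h4])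
  refine ⟨i, fun u hu => ?_⟩
  rw [hval i u hu, hi _ ⟨u, hu, rfl⟩]
  simp

theorem pr_succ [Algebra.IsAlgebraic K Ω] [IsAlgClosed Ω] (hSQ : S_SQ) (hTOR : S_TOR) {A B : K}
    (hA : A ≠ 0) (hB : B ≠ 0) (hD : 4 * A ^ 3 + 27 * B ^ 2 ≠ 0) {R : ℕ} (hR : PR Ω A B R) :
    PR Ω A B (R + 1) := by
  classical
  intro M hM
  haveI : IsAlgClosure K Ω := ⟨inferInstance, inferInstance⟩
  haveI : Normal K Ω := IsAlgClosure.normal K Ω
  haveI : CharZero Ω := charZero_of_injective_algebraMap (algebraMap K Ω).injective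
  -- the roots of the cubic
  have hD' : 4 * (algebraMap K Ω A) ^ 3 + 27 * (algebraMap K Ω B) ^ 2 ≠ 0 := by
    have h1 := (map_ne_zero (algebraMap K Ω)).mpr hD
    simpa only [map_add, map_mul, map_pow, map_ofNat] using h1
  obtain ⟨e, hinj, hfac, -⟩ := three_roots _ _ hD'
  haveI hfdr : FiniteDimensional K (adjoin K (Set.range e)) :=
    finiteDimensional_adjoin fun x _ => Algebra.IsIntegral.isIntegral x
  obtain ⟨L₀, hN₀, hM₀, hfd₀, hL₀⟩ := hR (M ⊔ adjoin K (Set.range e)) inferInstance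
  have hroots : ∀ z : Ω, cub (algebraMap K Ω A) (algebraMap K Ω B) z = 0 → z ∈ L₀ := by
    intro z hz
    have hmem : ∀ i, e i ∈ L₀ := fun i =>
      hM₀ ((le_sup_right : adjoin K (Set.range e) ≤ _) (subset_adjoin K _ ⟨i, rfl⟩))
    rw [hfac] at hz
    rcases mul_eq_zero.mp hz with h4 | h4
    · rcases mul_eq_zero.mp h4 with h5 | h5
      · rw [sub_eq_zero.mp h5]; exact hmem 0
      · rw [sub_eq_zero.mp h5]; exact hmem 1
    · rw [sub_eq_zero.mp h4]; exact hmem 2
  -- the new points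
  have hT : ∀ F₀ : IntermediateField K Ω, ∃ x r : Fin 3 → Ω, (F₀ ≤ L₀ →
      ((∃ e : Ω, e ∈ F₀ ∧ cub (algebraMap K Ω A) (algebraMap K Ω B) e = 0) ∨
        ∃ D : Ω, D ∈ F₀ ∧ D ^ 2 = -4 * (algebraMap K Ω A) ^ 3 - 27 * (algebraMap K Ω B) ^ 2) →
      Trip A B F₀ L₀ x r) := by
    intro F₀
    by_cases hle : F₀ ≤ L₀
    · haveI : FiniteDimensional K F₀ := fd_of_le hle
      by_cases hc : ((∃ e : Ω, e ∈ F₀ ∧ cub (algebraMap K Ω A) (algebraMap K Ω B) e = 0) ∨
        ∃ D : Ω, D ∈ F₀ ∧ D ^ 2 = -4 * (algebraMap K Ω A) ^ 3 - 27 * (algebraMap K Ω B) ^ 2)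
      · obtain ⟨x, r, h⟩ := trip_exists hSQ hTOR hA hB hD hle hc
        exact ⟨x, r, fun _ _ => h⟩
      · exact ⟨0, 0, fun _ h => absurd h hc⟩
    · exact ⟨0, 0, fun h => absurd h hle⟩
  choose x r hxr using hT
  set S : Set Ω := ⋃ F₀ ∈ {F : IntermediateField K Ω | F ≤ L₀}, Set.range (r F₀) with hS
  have hSf : S.Finite := Set.Finite.biUnion (finite_le L₀) fun F₀ _ => Set.finite_range _
  haveI : Finite S := hSf
  haveI : FiniteDimensional K (adjoin K S) :=
    finiteDimensional_adjoin fun x _ => Algebra.IsIntegral.isIntegral x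
  set L₂ := L₀ ⊔ adjoin K S with hL₂
  have hL₂le : L₂ ≤ normalClosure K L₂ Ω := le_normalClosure L₂
  have hL₀le : L₀ ≤ normalClosure K L₂ Ω := le_sup_left.trans hL₂le
  refine ⟨normalClosure K L₂ Ω, inferInstance, (le_sup_left.trans hM₀).trans hL₀le,
    inferInstance, ?_⟩
  intro U hU
  have hU₀ : Good (U.map (AlgEquiv.restrictNormalHom L₀)) := by
    refine Good.of_ker U (AlgEquiv.restrictNormalHom (normalClosure K L₂ Ω)) _ ?_ hU
    rw [restrictNormalHom_ker, restrictNormalHom_ker]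
    exact fixingSubgroup_le hL₀le
  obtain ⟨hpts, hdeg⟩ := hL₀ U hU₀
  have hF₀le : L₀ ⊓ fixedField U ≤ L₀ := inf_le_left
  have hTr := hxr _ hF₀le (good_root hD L₀ hroots U hU₀)
  have hFF : L₀ ⊓ fixedField U ≤ normalClosure K L₂ Ω ⊓ fixedField U := inf_le_inf_right _ hL₀le
  have hrS : ∀ i, r (L₀ ⊓ fixedField U) i ∈ normalClosure K L₂ Ω := by
    intro i
    refine hL₂le ((le_sup_right : adjoin K S ≤ L₂) (subset_adjoin K S ?_))
    rw [hS]
    exact Set.mem_biUnion (Set.mem_ofPred_eq ▸ hF₀le) ⟨i, rfl⟩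
  have hfix : ∀ z : Ω, z ∈ L₀ ⊓ fixedField U → ∀ u ∈ U, u z = z := by
    intro z hz u hu
    exact (mem_fixedField_iff U z).mp hz.2 u hu
  have hsqm : ∀ i, r (L₀ ⊓ fixedField U) i ^ 2 ∈ L₀ ⊓ fixedField U := by
    intro i
    rw [hTr.hr i, cub]
    exact add_mem (add_mem (pow_mem (hTr.hx i) 3)
      (mul_mem (IntermediateField.algebraMap_mem _ A) (hTr.hx i)))
      (IntermediateField.algebraMap_mem _ B)
  obtain ⟨i, hi⟩ := sign_fixed (normalClosure K L₂ Ω) U hU (r (L₀ ⊓ fixedField U)) hrS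
    (fun i u hu => by rw [← map_pow, hfix _ (hsqm i) u hu])
    (fun u hu => hfix _ hTr.hq u hu) hTr.hq0
  have hrF : r (L₀ ⊓ fixedField U) i ∈ normalClosure K L₂ Ω ⊓ fixedField U :=
    ⟨hrS i, (mem_fixedField_iff U _).mpr hi⟩
  have hfdF : FiniteDimensional K ↥(normalClosure K L₂ Ω ⊓ fixedField U) :=
    fd_of_le (F' := normalClosure K L₂ Ω) inf_le_left
  refine ⟨hpts.succ hD hF₀le hFF (hTr.hx i) (hTr.hr i) hrF (hTr.hL i) (hTr.hT i), ?_⟩
  rw [pow_succ]
  exact (mul_dvd_mul_right hdeg 2).trans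
    (two_dvd hFF hrF (fun h => hTr.hL i (hF₀le h)) (hsqm i))

end

end Pool.Agent.N683.HR
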