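import Pool.Agent.N683.HR.Moe

/-! Triples of values of a cubic whose product is a square. -/

set_option autoImplicit false

namespace Pool.Agent.N683.HR

open Polynomial

section poly
variable {F : Type} [Field F] {A B : F}

noncomputable def cubP (A B : F) : F[X] := X ^ 3 + C A * X + C B

theorem cubP_eval (x : F) : (cubP A B).eval x = cub A B x := by simp [cubP, cub]

theorem cubP_deriv : derivative (cubP A B) = 3 * X ^ 2 + C A := by
  simp only [cubP, derivative_add, derivative_X_pow, derivative_C_mul, derivative_X, derivative_C]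
  simp [map_ofNat]

theorem cubP_deg : (cubP A B).natDegree = 3 := by
  rw [cubP]
  compute_degree!

theorem cubP_sep (hD : 4 * A ^ 3 + 27 * B ^ 2 ≠ 0) : (cubP A B).Separable := by
  set d := 4 * A ^ 3 + 27 * B ^ 2 with hd
  have hc : C d⁻¹ * (4 * C A ^ 3 + 27 * C B ^ 2) = (1 : F[X]) := by
    have h1 : (4 * C A ^ 3 + 27 * C B ^ 2 : F[X]) = C d := by
      rw [hd]
      simp only [map_add, map_mul, map_pow, map_ofNat]
    rw [h1, ← C_mul, inv_mul_cancel₀ hD, C_1]
  refine ⟨C d⁻¹ * (-9 * (2 * C A * X - 3 * C B)),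
    C d⁻¹ * (4 * C A ^ 2 + 3 * X * (2 * C A * X - 3 * C B)), ?_⟩
  rw [cubP_deriv, cubP]
  linear_combination hc

theorem comp_sep [CharZero F] (hD : 4 * A ^ 3 + 27 * B ^ 2 ≠ 0) {s t : F} (hs : s ≠ 0)
    (ht : cub A B t ≠ 0) : ((cubP A B).comp (C s * X ^ 2 + C t)).Separable := by
  have h := cubP_sep hD
  rw [Polynomial.Separable] at h ⊢
  rw [derivative_comp]
  have h1 := h.map (compRingHom (C s * X ^ 2 + C t))
  rw [coe_compRingHom_apply, coe_compRingHom_apply] at h1
  refine IsCoprime.mul_right ?_ h1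
  have h2 : derivative (C s * X ^ 2 + C t) = C (2 * s) * X := by
    simp only [derivative_add, derivative_C_mul, derivative_X_pow, derivative_C]
    simp only [Nat.cast_ofNat, map_mul, map_ofNat]
    ring
  rw [h2]
  have h3 : IsUnit (C (2 * s)) := isUnit_C.mpr (mul_ne_zero two_ne_zero hs).isUnit
  rw [isCoprime_mul_unit_left_right h3]
  refine IsCoprime.symm ?_
  rw [irreducible_X.coprime_iff_not_dvd, X_dvd_iff, coeff_zero_eq_eval_zero, eval_comp]
  simp only [eval_add, eval_mul, eval_C, eval_pow, eval_X]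
  rw [cubP_eval]
  simpa using ht

theorem comp_deg [CharZero F] {s t : F} (hs : s ≠ 0) :
    1 ≤ ((cubP A B).comp (C s * X ^ 2 + C t)).natDegree := by
  rw [natDegree_comp, cubP_deg]
  have : (C s * X ^ 2 + C t).natDegree = 2 := by compute_degree!
  rw [this]
  norm_num

end poly

/-- **TRI.** -/
theorem tri (hSQ : S_SQ) (F L : Type) [Field F] [NumberField F] [Field L] [NumberField L]
    [Algebra F L] (A B : F) (hA : A ≠ 0) (hB : B ≠ 0) (hD : 4 * A ^ 3 + 27 * B ^ 2 ≠ 0)
    (h : (∃ e : F, cub A B e = 0) ∨ ∃ D : F, D ^ 2 = -4 * A ^ 3 - 27 * B ^ 2)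
    (T : Set F) (hT : T.Finite) :
    ∃ (x : Fin 3 → F) (q : F), (∀ i, x i ∉ T) ∧ q ≠ 0 ∧
      cub A B (x 0) * cub A B (x 1) * cub A B (x 2) = q ^ 2 ∧
      ∀ i, ∀ y : L, y ^ 2 ≠ algebraMap F L (cub A B (x i)) := by
  obtain ⟨α, β, γ, δ, κ, hγ, hκ, hdet, hM⟩ := moebius hA hB hD h
  obtain ⟨v, hvT, hv⟩ := hSQ F L (cubP A B) (cubP_sep hD) (by rw [cubP_deg]; norm_num) T hT
  rw [cubP_eval] at hv
  have hv0 : cub A B v ≠ 0 := fun h0 => hv 0 (by rw [h0, map_zero]; ring)
  -- the quadratic extension
  obtain ⟨s, hs⟩ := IsAlgClosed.exists_pow_nat_eq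
    (algebraMap L (AlgebraicClosure L) (algebraMap F L (cub A B v))) (n := 2) (by norm_num)
  have hsi : IsIntegral L s := Algebra.IsIntegral.isIntegral s
  haveI : FiniteDimensional L (IntermediateField.adjoin L {s}) :=
    IntermediateField.adjoin.finiteDimensional hsi
  haveI : NumberField (IntermediateField.adjoin L {s}) := NumberField.of_module_finite L _
  letI : Algebra F (IntermediateField.adjoin L {s}) :=
    ((algebraMap L (IntermediateField.adjoin L {s})).comp (algebraMap F L)).toAlgebra
  have ht0 : cub A B (-δ / γ) ≠ 0 := by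
    intro h0
    have h1 := hM (-δ / γ)
    rw [h0, mul_zero] at h1
    have h2 : γ * (-δ / γ) + δ = 0 := by field_simp; ring
    rw [h2] at h1
    have h3 : (α * (-δ / γ) + β) ^ 3 = 0 := by linear_combination h1
    have h4 := pow_eq_zero_iff (n := 3) (by norm_num) |>.mp h3
    apply hdet
    field_simp at h4
    linear_combination -h4
  have hs0 : cub A B v / (κ * γ) ≠ 0 := div_ne_zero hv0 (mul_ne_zero hκ hγ)
  set p : F → F := fun w => cub A B v / (κ * γ) * w ^ 2 + -δ / γ with hp
  set N : F → F := fun x => (α * x + β) / (γ * x + δ) with hN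
  have hpγ : ∀ w, γ * p w + δ = cub A B v / κ * w ^ 2 := by
    intro w
    simp only [hp]
    field_simp
    ring
  -- the exceptional set
  have hsq : ∀ b : F, {w : F | w ^ 2 = b}.Finite := by
    intro b
    by_cases hb : ∃ w, w ^ 2 = b
    · obtain ⟨w0, rfl⟩ := hb
      refine (Set.toFinite {w0, -w0}).subset ?_
      intro w hw
      exact sq_eq_sq_iff_eq_or_eq_neg.mp hw
    · push Not at hb
      refine (Set.finite_empty).subset ?_
      intro w hw
      exact hb w hw
  have hpf : ∀ S : Set F, S.Finite → {w : F | p w ∈ S}.Finite := by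
    intro S hS
    refine Set.Finite.preimage' hS fun b _ => ?_
    refine (hsq ((b - -δ / γ) / (cub A B v / (κ * γ)))).subset ?_
    intro w hw
    have hw' : p w = b := hw
    simp only [Set.mem_setOf_eq, ← hw', hp]
    rw [add_sub_cancel_right, mul_div_cancel_left₀ _ hs0]
  have hNf : ∀ S : Set F, S.Finite → {x : F | γ * x + δ ≠ 0 ∧ N x ∈ S}.Finite := by
    intro S hS
    refine Set.Finite.of_finite_image (f := N) (hS.subset ?_) ?_
    · rintro _ ⟨x, hx, rfl⟩
      exact hx.2
    · intro x hx x' hx' hxx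
      have h1 := hx.1
      have h2 := hx'.1
      simp only [hN] at hxx
      rw [div_eq_div_iff h1 h2] at hxx
      have h3 : (α * δ - β * γ) * (x - x') = 0 := by linear_combination hxx
      exact sub_eq_zero.mp ((mul_eq_zero.mp h3).resolve_left hdet)
  obtain ⟨w, hwT, hw⟩ := hSQ F (IntermediateField.adjoin L {s})
    ((cubP A B).comp (C (cub A B v / (κ * γ)) * X ^ 2 + C (-δ / γ))) (comp_sep hD hs0 ht0)
    (comp_deg hs0)
    ({0} ∪ {w : F | p w ∈ T} ∪ {w : F | p w ∈ {x : F | γ * x + δ ≠ 0 ∧ N x ∈ T}})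
    (((Set.finite_singleton 0).union (hpf T hT)).union (hpf _ (hNf T hT)))
  rw [eval_comp] at hw
  simp only [eval_add, eval_mul, eval_C, eval_pow, eval_X] at hw
  rw [cubP_eval] at hw
  change ∀ y, y ^ 2 ≠ algebraMap F _ (cub A B (p w)) at hw
  have hw0 : w ≠ 0 := fun h0 => hwT (Or.inl (Or.inl h0))
  have hx0 : γ * p w + δ ≠ 0 := by
    rw [hpγ]
    exact mul_ne_zero (div_ne_zero hv0 hκ) (pow_ne_zero _ hw0)
  have hxT : p w ∉ T := fun h0 => hwT (Or.inl (Or.inr h0))
  have hNT : N (p w) ∉ T := fun h0 => hwT (Or.inr ⟨hx0, h0⟩)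
  have hfx0 : cub A B (p w) ≠ 0 := fun h0 => hw 0 (by rw [h0, map_zero]; ring)
  have hNx : cub A B (N (p w)) = κ * cub A B (p w) / (γ * p w + δ) ^ 3 := by
    rw [← hM]
    simp only [hN, cub]
    generalize γ * p w + δ = g at hx0
    generalize α * p w + β = a
    field_simp
  have hprod : cub A B v * cub A B (p w) * cub A B (N (p w)) =
      (cub A B (p w) * κ ^ 2 / (cub A B v * w ^ 3)) ^ 2 := by
    rw [hNx, hpγ]
    field_simp
  refine ⟨![v, p w, N (p w)], cub A B (p w) * κ ^ 2 / (cub A B v * w ^ 3), ?_, ?_, hprod, ?_⟩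
  · intro i
    fin_cases i
    · exact hvT
    · exact hxT
    · exact hNT
  · exact div_ne_zero (mul_ne_zero hfx0 (pow_ne_zero _ hκ)) (mul_ne_zero hv0 (pow_ne_zero _ hw0))
  · have hmap : ∀ z : F, algebraMap F (IntermediateField.adjoin L {s}) z =
        algebraMap L (IntermediateField.adjoin L {s}) (algebraMap F L z) := fun z => rfl
    intro i
    fin_cases i
    · exact hv
    · intro y hy
      change y ^ 2 = algebraMap F L (cub A B (p w)) at hy
      exact hw (algebraMap L _ y) (by rw [hmap, ← hy, map_pow])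
    · intro y hy
      change y ^ 2 = algebraMap F L (cub A B (N (p w))) at hy
      -- `f(x)` is a square in the quadratic extension
      set s' : IntermediateField.adjoin L {s} :=
        ⟨s, IntermediateField.mem_adjoin_simple_self L s⟩ with hs'
      have hs2 : s' ^ 2 = algebraMap F (IntermediateField.adjoin L {s}) (cub A B v) := by
        apply Subtype.ext
        rw [hmap]
        exact hs
      have hs'0 : s' ≠ 0 := by
        intro h0
        rw [h0] at hs2
        have h1 : algebraMap F (IntermediateField.adjoin L {s}) (cub A B v) = 0 := by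
          rw [← hs2]; ring
        exact hv0 ((map_eq_zero _).mp h1)
      have hy2 : (algebraMap L (IntermediateField.adjoin L {s}) y) ^ 2 =
          algebraMap F (IntermediateField.adjoin L {s}) (cub A B (N (p w))) := by
        rw [hmap, ← hy, map_pow]
      have hq2 := congrArg (algebraMap F (IntermediateField.adjoin L {s})) hprod
      rw [map_mul, map_mul, ← hs2, ← hy2, map_pow] at hq2
      have hy0 : algebraMap L (IntermediateField.adjoin L {s}) y ≠ 0 := by
        intro h0
        rw [h0] at hy2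
        have h1 : algebraMap F (IntermediateField.adjoin L {s}) (cub A B (N (p w))) = 0 := by
          rw [← hy2]; ring
        have h2 := (map_eq_zero _).mp h1
        rw [hNx] at h2
        exact (div_ne_zero (mul_ne_zero hκ hfx0) (pow_ne_zero _ hx0)) h2
      refine hw (algebraMap F (IntermediateField.adjoin L {s})
        (cub A B (p w) * κ ^ 2 / (cub A B v * w ^ 3)) /
          (s' * algebraMap L (IntermediateField.adjoin L {s}) y)) ?_
      rw [div_pow, ← hq2]
      field_simp

end Pool.Agent.N683.HR
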