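import Pool.Agent.N683.HR.Tri
import Pool.Agent.N683.HR.Ind

/-! The new points over the algebraic closure. -/

set_option autoImplicit false

namespace Pool.Agent.N683.HR

open IntermediateField WeierstrassCurve

section
variable {K Ω : Type} [Field K] [NumberField K] [Field Ω] [Algebra K Ω] [DecidableEq Ω]

/-- `F` contains the coordinates of `R` independent points. -/
def HasPts (A B : K) (F : IntermediateField K Ω) (R : ℕ) : Prop :=
  ∃ P : Fin R → (((crv A B).baseChange Ω).toAffine).Point, LinearIndependent ℤ P ∧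
    ∀ i, P i ∈ (Affine.Point.map (W' := crv A B) F.val).range

/-- The data for one step. -/
structure Trip (A B : K) (F₀ L₀ : IntermediateField K Ω) (x r : Fin 3 → Ω) : Prop where
  hx : ∀ i, x i ∈ F₀
  hr : ∀ i, r i ^ 2 = cub (algebraMap K Ω A) (algebraMap K Ω B) (x i)
  hq : r 0 * r 1 * r 2 ∈ F₀
  hq0 : r 0 * r 1 * r 2 ≠ 0
  hL : ∀ i, r i ∉ L₀
  hT : ∀ i (h : ((crv A B).baseChange Ω).toAffine.Nonsingular (x i) (r i)) (n : ℕ), 0 < n →
    n • (Affine.Point.some (x i) (r i) h) ≠ 0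

theorem bc_eq (A B : K) : (crv A B).baseChange Ω = crv (algebraMap K Ω A) (algebraMap K Ω B) := by
  simp [crv, WeierstrassCurve.baseChange, WeierstrassCurve.map]

theorem trip_exists [IsAlgClosed Ω] (hSQ : S_SQ) (hTOR : S_TOR) {A B : K} (hA : A ≠ 0)
    (hB : B ≠ 0) (hD : 4 * A ^ 3 + 27 * B ^ 2 ≠ 0) {F₀ L₀ : IntermediateField K Ω}
    (hle : F₀ ≤ L₀) [FiniteDimensional K F₀] [FiniteDimensional K L₀]
    (h : (∃ e : Ω, e ∈ F₀ ∧ cub (algebraMap K Ω A) (algebraMap K Ω B) e = 0) ∨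
      ∃ D : Ω, D ∈ F₀ ∧ D ^ 2 = -4 * (algebraMap K Ω A) ^ 3 - 27 * (algebraMap K Ω B) ^ 2) :
    ∃ x r : Fin 3 → Ω, Trip A B F₀ L₀ x r := by
  haveI : NumberField F₀ := NumberField.of_module_finite K F₀
  haveI : NumberField L₀ := NumberField.of_module_finite K L₀
  letI : Algebra F₀ L₀ := (IntermediateField.inclusion hle).toAlgebra
  have hinj := (algebraMap K F₀).injective
  have hval : ∀ z : K, ((algebraMap K F₀ z : F₀) : Ω) = algebraMap K Ω z := fun z => rfl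
  have hA' : algebraMap K F₀ A ≠ 0 := (map_ne_zero _).mpr hA
  have hB' : algebraMap K F₀ B ≠ 0 := (map_ne_zero _).mpr hB
  have hD' : 4 * (algebraMap K F₀ A) ^ 3 + 27 * (algebraMap K F₀ B) ^ 2 ≠ 0 := by
    have h1 := (map_ne_zero (algebraMap K F₀)).mpr hD
    simpa only [map_add, map_mul, map_pow, map_ofNat] using h1
  obtain ⟨T, hT, hTt⟩ := hTOR F₀ (algebraMap K F₀ A) (algebraMap K F₀ B) hD'
  have h' : (∃ e : F₀, cub (algebraMap K F₀ A) (algebraMap K F₀ B) e = 0) ∨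
      ∃ D : F₀, D ^ 2 = -4 * (algebraMap K F₀ A) ^ 3 - 27 * (algebraMap K F₀ B) ^ 2 := by
    rcases h with ⟨e, he, h1⟩ | ⟨D, hDm, h1⟩
    · exact Or.inl ⟨⟨e, he⟩, Subtype.ext h1⟩
    · exact Or.inr ⟨⟨D, hDm⟩, Subtype.ext h1⟩
  obtain ⟨x, q, hxT, hq0, hq, hsq⟩ := tri hSQ F₀ L₀ _ _ hA' hB' hD' h' T hT
  have hr : ∀ i, ∃ r : Ω, r ^ 2 = ((cub (algebraMap K F₀ A) (algebraMap K F₀ B) (x i) : F₀) : Ω) :=
    fun i => IsAlgClosed.exists_pow_nat_eq _ (n := 2) (by norm_num)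
  choose r hr using hr
  have hprod : (r 0 * r 1 * r 2) ^ 2 = ((q : F₀) : Ω) ^ 2 := by
    have h1 := congrArg (fun z : F₀ => (z : Ω)) hq
    simp only [IntermediateField.coe_mul, IntermediateField.coe_pow] at h1
    rw [← h1, mul_pow, mul_pow, hr, hr, hr]
  have hq0' : ((q : F₀) : Ω) ≠ 0 := by
    intro h0
    exact hq0 (Subtype.ext h0)
  refine ⟨fun i => x i, r, ⟨fun i => (x i).2, ?_, ?_, ?_, ?_, ?_⟩⟩
  · intro i
    rw [hr]
    rfl
  · rcases sq_eq_sq_iff_eq_or_eq_neg.mp hprod with h1 | h1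
    · rw [h1]; exact q.2
    · rw [h1]; exact F₀.neg_mem q.2
  · intro h0
    rw [h0] at hprod
    exact hq0' (pow_eq_zero_iff (n := 2) (by norm_num) |>.mp (by rw [← hprod]; ring))
  · intro i hi
    refine hsq i ⟨r i, hi⟩ (Subtype.ext ?_)
    exact hr i
  · intro i
    have key : ∀ (W : WeierstrassCurve Ω), W = crv (algebraMap F₀ Ω (algebraMap K F₀ A))
        (algebraMap F₀ Ω (algebraMap K F₀ B)) →
        ∀ (h : W.toAffine.Nonsingular (x i : Ω) (r i)) (n : ℕ), 0 < n →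
          n • (Affine.Point.some (x i : Ω) (r i) h) ≠ 0 := by
      rintro W rfl h n hn
      exact hTt (x i) (hxT i) Ω (r i) h n hn
    exact key _ (bc_eq A B)

end

end Pool.Agent.N683.HR
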